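import Mathlib

/-!
# Transfer systems and rational incomplete Mackey functors
-/

set_option autoImplicit false
set_option linter.all false

namespace Pool.Agent.X317.MK

open MulAction

/-- a transfer system for `G` -/
structure TS (G : Type) [Group G] where
  rel : Subgroup G → Subgroup G → Prop
  refl : ∀ H, rel H H
  trans : ∀ {K H L}, rel K H → rel H L → rel K L
  le : ∀ {K H}, rel K H → K ≤ H
  conj : ∀ {K H} (g : G), rel K H →
    rel (K.map (MulAut.conj g).toMonoidHom) (H.map (MulAut.conj g).toMonoidHom)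
  restr : ∀ {K H L}, rel K H → L ≤ H → rel (K ⊓ L) L

/-- a finite `G`-set -/
structure FS (G : Type) [Group G] where
  X : Type
  [act : MulAction G X]
  [fin : Finite X]

attribute [instance] FS.act FS.fin

variable {G : Type} [Group G]

/-- a map of finite `G`-sets is `O`-admissible -/
def Adm (O : TS G) {X Y : FS G} (f : X.X →[G] Y.X) : Prop :=
  ∀ x, O.rel (stabilizer G x) (stabilizer G (f x))

/-- the square with `p : W → X`, `q : W → Y`, `f : X → Z`, `g : Y → Z` is a pullback of sets -/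
def IsPB {W X Y Z : FS G} (p : W.X →[G] X.X) (q : W.X →[G] Y.X) (f : X.X →[G] Z.X)
    (g : Y.X →[G] Z.X) : Prop :=
  (∀ w, f (p w) = g (q w)) ∧ ∀ x y, f x = g y → ∃! w, p w = x ∧ q w = y

/-- `X` is the disjoint union of `A` and `B` -/
def IsSum {A B X : FS G} (i : A.X →[G] X.X) (j : B.X →[G] X.X) : Prop :=
  Function.Injective i ∧ Function.Injective j ∧ (∀ a b, i a ≠ j b) ∧
    ∀ x, (∃ a, i a = x) ∨ ∃ b, j b = x

/-- a rational `O`-Mackey functor -/
structure OMack (O : TS G) where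
  V : FS G → ModuleCat.{0} ℚ
  res : ∀ {X Y : FS G} (f : X.X →[G] Y.X), V Y →ₗ[ℚ] V X
  tr : ∀ {X Y : FS G} (f : X.X →[G] Y.X), Adm O f → (V X →ₗ[ℚ] V Y)
  res_id : ∀ (X : FS G) (m : V X), res (MulActionHom.id G : X.X →[G] X.X) m = m
  res_comp : ∀ {X Y Z : FS G} (f : X.X →[G] Y.X) (g : Y.X →[G] Z.X) (m : V Z),
    res (g.comp f) m = res f (res g m)
  tr_id : ∀ (X : FS G) (h : Adm O (MulActionHom.id G : X.X →[G] X.X)) (m : V X),
    tr (MulActionHom.id G : X.X →[G] X.X) h m = m
  tr_comp : ∀ {X Y Z : FS G} (f : X.X →[G] Y.X) (g : Y.X →[G] Z.X) (hf : Adm O f) (hg : Adm O g)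
    (h : Adm O (g.comp f)) (m : V X), tr (g.comp f) h m = tr g hg (tr f hf m)
  base : ∀ {W X Y Z : FS G} (p : W.X →[G] X.X) (q : W.X →[G] Y.X) (f : X.X →[G] Z.X)
    (g : Y.X →[G] Z.X) (hf : Adm O f) (hq : Adm O q), IsPB p q f g → ∀ m : V X,
    res g (tr f hf m) = tr q hq (res p m)
  empty : ∀ (X : FS G), IsEmpty X.X → ∀ m : V X, m = 0
  add : ∀ {A B X : FS G} (i : A.X →[G] X.X) (j : B.X →[G] X.X), IsSum i j →
    Function.Bijective (fun m : V X => (res i m, res j m))

/-- morphisms of `O`-Mackey functors -/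
structure MHom {O : TS G} (M N : OMack O) where
  app : ∀ X : FS G, M.V X →ₗ[ℚ] N.V X
  res : ∀ {X Y : FS G} (f : X.X →[G] Y.X) (m : M.V Y), app X (M.res f m) = N.res f (app Y m)
  tr : ∀ {X Y : FS G} (f : X.X →[G] Y.X) (h : Adm O f) (m : M.V X),
    app Y (M.tr f h m) = N.tr f h (app X m)

/-- projective objects: lifting against the (pointwise) surjective morphisms -/
def IsProj {O : TS G} (P : OMack O) : Prop :=
  ∀ (M N : OMack O) (g : MHom M N) (h : MHom P N), (∀ X, Function.Surjective (g.app X)) →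
    ∃ l : MHom P M, ∀ X m, g.app X (l.app X m) = h.app X m

/-- there is an exact sequence `0 → P_n → ⋯ → P_0 → M → 0` with all `P_i` projective -/
def pdLE {O : TS G} : ℕ → OMack O → Prop
  | 0, M => IsProj M
  | n + 1, M => ∃ (K P : OMack O) (i : MHom K P) (p : MHom P M), IsProj P ∧
      (∀ X, Function.Injective (i.app X)) ∧ (∀ X, Function.Surjective (p.app X)) ∧
      (∀ X m, p.app X m = 0 ↔ ∃ k, i.app X k = m) ∧ pdLE n K

/-- the projective dimension -/
noncomputable def pd {O : TS G} (M : OMack O) : ℕ∞ := sInf {n : ℕ∞ | ∃ k : ℕ, n = k ∧ pdLE k M}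

/-- the global dimension of the category of rational `O`-Mackey functors -/
noncomputable def gldim (O : TS G) : ℕ∞ := ⨆ M : OMack O, pd M

end Pool.Agent.X317.MK
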