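import Mathlib
import Pool.Agent.X317.MK.Def

/-!
# Orbits and factorizations
-/

set_option autoImplicit false
set_option linter.all false

namespace Pool.Agent.X317.MK

open MulAction

variable {G : Type} [Group G]

theorem stab_le {X Y : Type} [MulAction G X] [MulAction G Y] (f : X →[G] Y) (x : X) :
    stabilizer G x ≤ stabilizer G (f x) := by
  intro g hg
  rw [mem_stabilizer_iff] at hg ⊢
  rw [← map_smul, hg]

theorem stab_inj {X Y : Type} [MulAction G X] [MulAction G Y] (f : X →[G] Y)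
    (hf : Function.Injective f) (x : X) : stabilizer G (f x) = stabilizer G x := by
  apply le_antisymm
  · intro g hg
    rw [mem_stabilizer_iff] at hg ⊢
    apply hf
    rw [map_smul, hg]
  · exact stab_le f x

theorem rel_antisymm_conj (O : TS G) {K H : Subgroup G} (g : G) :
    O.rel (K.map (MulAut.conj g).toMonoidHom) (H.map (MulAut.conj g).toMonoidHom) ↔ O.rel K H := by
  constructor
  · intro h
    have h1 := O.conj g⁻¹ h
    rw [Subgroup.map_map, Subgroup.map_map] at h1
    have h2 : ((MulAut.conj g⁻¹).toMonoidHom.comp (MulAut.conj g).toMonoidHom) = MonoidHom.id G := by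
      ext x
      simp
      group
    rw [h2, Subgroup.map_id, Subgroup.map_id] at h1
    exact h1
  · exact O.conj g

/-- the left class -/
def Lc (O : TS G) (J H : Subgroup G) : Prop := J ≤ H ∧ ∀ K, O.rel K H → J ≤ K → K = H

theorem Lc_refl (O : TS G) (H : Subgroup G) : Lc O H H :=
  ⟨le_rfl, fun K h1 h2 => le_antisymm (O.le h1) h2⟩

theorem Lc_trans (O : TS G) {J H L : Subgroup G} (h1 : Lc O J H) (h2 : Lc O H L) : Lc O J L := by
  refine ⟨h1.1.trans h2.1, ?_⟩
  intro K hK hJ
  have h3 : O.rel (K ⊓ H) H := O.restr hK h2.1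
  have h4 := h1.2 _ h3 (le_inf hJ h1.1)
  exact h2.2 K hK (h4 ▸ inf_le_left)

theorem Lc_cancel (O : TS G) {J H L : Subgroup G} (h : Lc O J L) (h1 : J ≤ H) (h2 : H ≤ L) :
    Lc O H L := ⟨h2, fun K hK hH => h.2 K hK (h1.trans hH)⟩

theorem Lc_conj (O : TS G) {J H : Subgroup G} (g : G) (h : Lc O J H) :
    Lc O (J.map (MulAut.conj g).toMonoidHom) (H.map (MulAut.conj g).toMonoidHom) := by
  refine ⟨Subgroup.map_mono h.1, ?_⟩
  intro K hK hJ
  have e : ∀ (A : Subgroup G), (A.map (MulAut.conj g⁻¹).toMonoidHom).map (MulAut.conj g).toMonoidHom = A := by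
    intro A
    rw [Subgroup.map_map]
    have h2 : ((MulAut.conj g).toMonoidHom.comp (MulAut.conj g⁻¹).toMonoidHom) = MonoidHom.id G := by
      ext x
      simp
      group
    rw [h2, Subgroup.map_id]
  have e' : ∀ (A : Subgroup G), (A.map (MulAut.conj g).toMonoidHom).map (MulAut.conj g⁻¹).toMonoidHom = A := by
    intro A
    rw [Subgroup.map_map]
    have h2 : ((MulAut.conj g⁻¹).toMonoidHom.comp (MulAut.conj g).toMonoidHom) = MonoidHom.id G := by
      ext x
      simp
      group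
    rw [h2, Subgroup.map_id]
  have h1 : O.rel (K.map (MulAut.conj g⁻¹).toMonoidHom) H := by
    rw [← rel_antisymm_conj O g, e]
    exact hK
  have h2 : J ≤ K.map (MulAut.conj g⁻¹).toMonoidHom := by
    rw [← e' J]
    exact Subgroup.map_mono hJ
  rw [← e K, h.2 _ h1 h2]

theorem Lc_adm (O : TS G) {J H : Subgroup G} (h : Lc O J H) (h' : O.rel J H) : J = H := h.2 J h' le_rfl

section
variable [Finite G]

/-- the orbit `G/K` -/
def orb (K : Subgroup G) : FS G := ⟨G ⧸ K⟩

/-- the base point -/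
def o1 (K : Subgroup G) : (orb K).X := ((1 : G) : G ⧸ K)

theorem stab_o1 (K : Subgroup G) : stabilizer G (o1 K) = K := stabilizer_quotient K

theorem orb_surj (K : Subgroup G) (x : (orb K).X) : ∃ g : G, g • o1 K = x := by
  obtain ⟨g, rfl⟩ := QuotientGroup.mk_surjective x
  refine ⟨g, ?_⟩
  show ((g * 1 : G) : G ⧸ K) = (g : G ⧸ K)
  rw [mul_one]

theorem orb_trans (K : Subgroup G) (x y : (orb K).X) : ∃ g : G, g • x = y := by
  obtain ⟨a, rfl⟩ := orb_surj K x
  obtain ⟨b, rfl⟩ := orb_surj K y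
  exact ⟨b * a⁻¹, by rw [smul_smul]; simp⟩

theorem orb_ext {K : Subgroup G} {X : Type} [MulAction G X] {f g : (orb K).X →[G] X} (x : (orb K).X)
    (h : f x = g x) : f = g := by
  apply DFunLike.ext
  intro y
  obtain ⟨a, rfl⟩ := orb_trans K x y
  rw [map_smul, map_smul, h]

/-- the map defined by a point -/
def pt {K : Subgroup G} {X : Type} [MulAction G X] (x : X) (h : K ≤ stabilizer G x) : (orb K).X →[G] X where
  toFun := fun y => Quotient.liftOn' (y : G ⧸ K) (fun g => g • x) (by
    intro a b hab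
    have h1 : a⁻¹ * b ∈ K := QuotientGroup.leftRel_apply.1 hab
    have h2 := h h1
    rw [mem_stabilizer_iff, mul_smul, inv_smul_eq_iff] at h2
    exact h2.symm)
  map_smul' := by
    intro g y
    obtain ⟨b, rfl⟩ := QuotientGroup.mk_surjective (y : G ⧸ K)
    show (g * b) • x = g • b • x
    rw [mul_smul]

theorem pt_o1 {K : Subgroup G} {X : Type} [MulAction G X] (x : X) (h : K ≤ stabilizer G x) :
    pt x h (o1 K) = x := by
  show (1 : G) • x = x
  rw [one_smul]

theorem exists_map {K : Subgroup G} {X : Type} [MulAction G X] (x : (orb K).X) (y : X)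
    (h : stabilizer G x ≤ stabilizer G y) : ∃ f : (orb K).X →[G] X, f x = y := by
  obtain ⟨g, rfl⟩ := orb_surj K x
  have h1 : K ≤ stabilizer G (g⁻¹ • y) := by
    intro a ha
    have h2 : g * a * g⁻¹ ∈ stabilizer G (g • o1 K) := by
      rw [mem_stabilizer_iff, smul_smul]
      have h3 : a ∈ stabilizer G (o1 K) := by
        rw [stab_o1]
        exact ha
      rw [mem_stabilizer_iff] at h3
      have : g * a * g⁻¹ * g = g * a := by group
      rw [this, mul_smul, h3]
    have h4 := h h2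
    rw [mem_stabilizer_iff] at h4 ⊢
    rw [eq_inv_smul_iff, smul_smul, smul_smul]
    exact h4
  refine ⟨pt _ h1, ?_⟩
  rw [map_smul, pt_o1, smul_inv_smul]

/-- left maps -/
def LM (O : TS G) {X Y : FS G} (f : X.X →[G] Y.X) : Prop :=
  ∀ x, Lc O (stabilizer G x) (stabilizer G (f x))

theorem LM_id (O : TS G) (X : FS G) : LM O (MulActionHom.id G : X.X →[G] X.X) := fun x => Lc_refl O _

theorem Adm_id (O : TS G) (X : FS G) : Adm O (MulActionHom.id G : X.X →[G] X.X) := fun x => O.refl _

theorem LM_comp (O : TS G) {X Y Z : FS G} {f : X.X →[G] Y.X} {g : Y.X →[G] Z.X} (hf : LM O f)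
    (hg : LM O g) : LM O (g.comp f) := fun x => Lc_trans O (hf x) (hg (f x))

theorem Adm_comp (O : TS G) {X Y Z : FS G} {f : X.X →[G] Y.X} {g : Y.X →[G] Z.X} (hf : Adm O f)
    (hg : Adm O g) : Adm O (g.comp f) := fun x => O.trans (hf x) (hg (f x))

theorem LM_inj (O : TS G) {X Y : FS G} {f : X.X →[G] Y.X} (hf : Function.Injective f) : LM O f := by
  intro x
  rw [stab_inj f hf]
  exact Lc_refl O _

theorem Adm_inj (O : TS G) {X Y : FS G} {f : X.X →[G] Y.X} (hf : Function.Injective f) : Adm O f := by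
  intro x
  rw [stab_inj f hf]
  exact O.refl _

theorem LM_of_pt (O : TS G) {K : Subgroup G} {Y : FS G} {f : (orb K).X →[G] Y.X} (x : (orb K).X)
    (h : Lc O (stabilizer G x) (stabilizer G (f x))) : LM O f := by
  intro y
  obtain ⟨g, rfl⟩ := orb_trans K x y
  rw [map_smul, stabilizer_smul_eq_stabilizer_map_conj, stabilizer_smul_eq_stabilizer_map_conj]
  exact Lc_conj O g h

theorem Adm_of_pt (O : TS G) {K : Subgroup G} {Y : FS G} {f : (orb K).X →[G] Y.X} (x : (orb K).X)
    (h : O.rel (stabilizer G x) (stabilizer G (f x))) : Adm O f := by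
  intro y
  obtain ⟨g, rfl⟩ := orb_trans K x y
  rw [map_smul, stabilizer_smul_eq_stabilizer_map_conj, stabilizer_smul_eq_stabilizer_map_conj]
  exact O.conj g h

theorem Adm_lift (O : TS G) {X Y Z : FS G} {f : X.X →[G] Y.X} {g : Y.X →[G] Z.X}
    (h : Adm O (g.comp f)) : Adm O f := by
  intro x
  have h1 := O.restr (h x) (stab_le g (f x))
  have h2 : stabilizer G x ⊓ stabilizer G (f x) = stabilizer G x := inf_eq_left.2 (stab_le f x)
  rw [h2] at h1
  exact h1

theorem LM_cancel (O : TS G) {K : Subgroup G} {A : Subgroup G} {Z : FS G} {f : (orb K).X →[G] (orb A).X}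
    {g : (orb A).X →[G] Z.X} (h : LM O (g.comp f)) : LM O g := by
  apply LM_of_pt O (f (o1 K))
  exact Lc_cancel O (h (o1 K)) (stab_le f _) (stab_le g _)

theorem Adm_base (O : TS G) {W X Y Z : FS G} {p : W.X →[G] X.X} {q : W.X →[G] Y.X} {f : X.X →[G] Z.X}
    {g : Y.X →[G] Z.X} (h : IsPB p q f g) (hf : Adm O f) : Adm O q := by
  intro w
  have h1 : stabilizer G w = stabilizer G (p w) ⊓ stabilizer G (q w) := by
    apply le_antisymm
    · exact le_inf (stab_le p w) (stab_le q w)
    · rintro a ⟨ha1, ha2⟩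
      have ha1' : a • p w = p w := ha1
      have ha2' : a • q w = q w := ha2
      obtain ⟨w', _, hw'⟩ := h.2 (p w) (q w) (h.1 w)
      have e1 := hw' w ⟨rfl, rfl⟩
      have e2 := hw' (a • w) ⟨by rw [map_smul, ha1'], by rw [map_smul, ha2']⟩
      exact e2.trans e1.symm
  rw [h1]
  apply O.restr (hf (p w))
  rw [h.1 w]
  exact stab_le g (q w)

theorem exists_cl (O : TS G) {K H : Subgroup G} (h : K ≤ H) : ∃ A, O.rel A H ∧ Lc O K A := by
  have hne : {A : Subgroup G | O.rel A H ∧ K ≤ A}.Nonempty := ⟨H, O.refl H, h⟩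
  obtain ⟨A, hA, hmin⟩ := WellFounded.has_min (wellFounded_lt (α := Subgroup G)) _ hne
  refine ⟨A, hA.1, hA.2, ?_⟩
  intro B hB hK
  by_contra hne
  exact hmin B ⟨O.trans hB hA.1, hK⟩ (lt_of_le_of_ne (O.le hB) hne)

theorem exists_fac (O : TS G) {K : Subgroup G} {X : FS G} (f : (orb K).X →[G] X.X) :
    ∃ (A : Subgroup G) (l : (orb K).X →[G] (orb A).X) (a : (orb A).X →[G] X.X),
      LM O l ∧ Adm O a ∧ a.comp l = f := by
  have h0 : K ≤ stabilizer G (f (o1 K)) := by
    have := stab_le f (o1 K)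
    rw [stab_o1] at this
    exact this
  obtain ⟨A, hA, hL⟩ := exists_cl O h0
  have h1 : K ≤ stabilizer G (o1 A) := by
    rw [stab_o1]
    exact hL.1
  refine ⟨A, pt (o1 A) h1, pt (f (o1 K)) (O.le hA), ?_, ?_, ?_⟩
  · apply LM_of_pt O (o1 K)
    rw [pt_o1, stab_o1, stab_o1]
    exact hL
  · apply Adm_of_pt O (o1 A)
    rw [pt_o1, stab_o1]
    exact hA
  · apply orb_ext (o1 K)
    show pt (f (o1 K)) (O.le hA) (pt (o1 A) h1 (o1 K)) = f (o1 K)
    rw [pt_o1, pt_o1]

theorem fac_unique (O : TS G) {K A B : Subgroup G} {X : FS G} (l : (orb K).X →[G] (orb A).X)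
    (a : (orb A).X →[G] X.X) (l' : (orb K).X →[G] (orb B).X) (a' : (orb B).X →[G] X.X)
    (hl : LM O l) (ha : Adm O a) (hl' : LM O l') (ha' : Adm O a') (h : a.comp l = a'.comp l') :
    ∃ t : (orb A).X →[G] (orb B).X, Function.Bijective t ∧ t.comp l = l' ∧ a'.comp t = a := by
  have hy : a (l (o1 K)) = a' (l' (o1 K)) := congrArg (fun f => f (o1 K)) h
  have key : ∀ {A B : Subgroup G} (l : (orb K).X →[G] (orb A).X)
      (a : (orb A).X →[G] X.X) (l' : (orb K).X →[G] (orb B).X) (a' : (orb B).X →[G] X.X)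
      (hl : LM O l) (ha : Adm O a) (hl' : LM O l') (ha' : Adm O a')
      (hy : a (l (o1 K)) = a' (l' (o1 K))),
      stabilizer G (l (o1 K)) ≤ stabilizer G (l' (o1 K)) := by
    intro A B l a l' a' hl ha hl' ha' hy
    have h1 : O.rel (stabilizer G (l' (o1 K))) (stabilizer G (a (l (o1 K)))) := by
      rw [hy]
      exact ha' _
    have h2 := O.restr h1 (stab_le a (l (o1 K)))
    have h3 := (hl (o1 K)).2 _ h2 (le_inf (stab_le l' _) (stab_le l _))
    rw [← h3]
    exact inf_le_left
  obtain ⟨t, ht⟩ := exists_map (l (o1 K)) (l' (o1 K)) (key l a l' a' hl ha hl' ha' hy)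
  obtain ⟨s, hs⟩ := exists_map (l' (o1 K)) (l (o1 K)) (key l' a' l a hl' ha' hl ha hy.symm)
  have h1 : s.comp t = MulActionHom.id G := by
    apply orb_ext (l (o1 K))
    show s (t (l (o1 K))) = l (o1 K)
    rw [ht, hs]
  have h2 : t.comp s = MulActionHom.id G := by
    apply orb_ext (l' (o1 K))
    show t (s (l' (o1 K))) = l' (o1 K)
    rw [hs, ht]
  refine ⟨t, ⟨?_, ?_⟩, ?_, ?_⟩
  · intro x y hxy
    have e1 : s (t x) = x := congrArg (fun f : (orb A).X →[G] (orb A).X => f x) h1
    have e2 : s (t y) = y := congrArg (fun f : (orb A).X →[G] (orb A).X => f y) h1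
    rw [← e1, hxy, e2]
  · intro x
    exact ⟨s x, congrArg (fun f : (orb B).X →[G] (orb B).X => f x) h2⟩
  · apply orb_ext (o1 K)
    exact ht
  · apply orb_ext (l (o1 K))
    show a' (t (l (o1 K))) = a (l (o1 K))
    rw [ht]
    exact hy.symm

/-- inverse of a bijective map -/
theorem exists_inv {X Y : FS G} (f : X.X →[G] Y.X) (hf : Function.Bijective f) :
    ∃ g : Y.X →[G] X.X, Function.Bijective g ∧ g.comp f = MulActionHom.id G ∧
      f.comp g = MulActionHom.id G := by
  let e := Equiv.ofBijective f hf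
  have he : ∀ x, e x = f x := fun x => rfl
  refine ⟨{ toFun := e.symm, map_smul' := ?_ }, ?_, ?_, ?_⟩
  · intro a y
    apply e.injective
    rw [Equiv.apply_symm_apply, he, map_smul, ← he, Equiv.apply_symm_apply]
    rfl
  · exact e.symm.bijective
  · apply DFunLike.ext
    intro x
    exact e.symm_apply_apply x
  · apply DFunLike.ext
    intro x
    exact e.apply_symm_apply x

end

end Pool.Agent.X317.MK
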