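import Mathlib
import Pool.Agent.X317.MK.Orb

/-!
# From functors on the left class to Mackey functors
-/

set_option autoImplicit false
set_option linter.all false

namespace Pool.Agent.X317.MK

open MulAction CategoryTheory
open Classical

variable {G : Type} [Group G] [Finite G]

/-- the orbit category of the left class -/
structure LO (O : TS G) where
  K : Subgroup G

instance catLO (O : TS G) : Category.{0} (LO O) where
  Hom J H := {f : (orb J.K).X →[G] (orb H.K).X // LM O f}
  id J := ⟨MulActionHom.id G, LM_id O _⟩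
  comp f g := ⟨g.1.comp f.1, LM_comp O f.2 g.2⟩
  id_comp f := Subtype.ext (DFunLike.ext _ _ fun x => rfl)
  comp_id f := Subtype.ext (DFunLike.ext _ _ fun x => rfl)
  assoc f g h := Subtype.ext (DFunLike.ext _ _ fun x => rfl)

/-- functors on the left class -/
abbrev FO (O : TS G) : Type 1 := (LO O)ᵒᵖ ⥤ ModuleCat.{0} ℚ

variable {O : TS G}

/-- value -/
abbrev ob (F : FO O) (K : Subgroup G) : ModuleCat.{0} ℚ := F.obj (Opposite.op ⟨K⟩)

/-- restriction along a left map -/
def mp (F : FO O) {J H : Subgroup G} (f : (orb J).X →[G] (orb H).X) (hf : LM O f) :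
    ob F H →ₗ[ℚ] ob F J :=
  (F.map (Quiver.Hom.op (X := (⟨J⟩ : LO O)) (Y := ⟨H⟩) ⟨f, hf⟩)).hom

theorem mp_id (F : FO O) {J : Subgroup G} (f : (orb J).X →[G] (orb J).X) (hf : LM O f)
    (h : f = MulActionHom.id G) (x : ob F J) : mp F f hf x = x := by
  subst h
  have h1 := F.map_id (Opposite.op (⟨J⟩ : LO O))
  exact congrArg (fun g => ModuleCat.Hom.hom g x) h1

theorem mp_comp (F : FO O) {J H L : Subgroup G} (f : (orb J).X →[G] (orb H).X) (hf : LM O f)
    (g : (orb H).X →[G] (orb L).X) (hg : LM O g) (h : LM O (g.comp f)) (x : ob F L) :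
    mp F (g.comp f) h x = mp F f hf (mp F g hg x) := by
  have h1 := F.map_comp (Quiver.Hom.op (X := (⟨H⟩ : LO O)) (Y := ⟨L⟩) ⟨g, hg⟩)
    (Quiver.Hom.op (X := (⟨J⟩ : LO O)) (Y := ⟨H⟩) ⟨f, hf⟩)
  exact congrArg (fun k => ModuleCat.Hom.hom k x) h1

theorem mp_congr (F : FO O) {J H : Subgroup G} {f f' : (orb J).X →[G] (orb H).X} (hf : LM O f)
    (hf' : LM O f') (h : f = f') (x : ob F H) : mp F f hf x = mp F f' hf' x := by
  subst h
  rfl

/-- admissible maps out of an orbit -/
def Ad (O : TS G) (K : Subgroup G) (X : FS G) : Type := {a : (orb K).X →[G] X.X // Adm O a}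

instance finHom (X Y : FS G) : Finite (X.X →[G] Y.X) :=
  Finite.of_injective (fun f => (f : X.X → Y.X)) DFunLike.coe_injective

instance (K : Subgroup G) (X : FS G) : Finite (Ad O K X) := Subtype.finite

noncomputable instance (K : Subgroup G) (X : FS G) : Fintype (Ad O K X) := Fintype.ofFinite _

noncomputable instance (X Y : FS G) : Fintype (X.X →[G] Y.X) := Fintype.ofFinite _

/-- precomposition with a bijection -/
def Ad.pre {J K : Subgroup G} {X : FS G} (a : Ad O K X) (b : (orb J).X →[G] (orb K).X)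
    (hb : Function.Bijective b) : Ad O J X := ⟨a.1.comp b, Adm_comp O (Adm_inj O hb.1) a.2⟩

/-- equivariant families -/
def PV (F : FO O) (X : FS G) : Submodule ℚ (∀ K : Subgroup G, Ad O K X → ob F K) where
  carrier := {f | ∀ (J K : Subgroup G) (b : (orb J).X →[G] (orb K).X) (hb : Function.Bijective b)
    (a : Ad O K X), f J (a.pre b hb) = mp F b (LM_inj O hb.1) (f K a)}
  zero_mem' := by
    intro J K b hb a
    show (0 : ob F J) = mp F b _ 0
    rw [map_zero]
  add_mem' := by
    intro f g hf hg J K b hb a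
    show f J _ + g J _ = mp F b _ (f K a + g K a)
    rw [map_add, hf J K b hb a, hg J K b hb a]
  smul_mem' := by
    intro c f hf J K b hb a
    show c • f J _ = mp F b _ (c • f K a)
    rw [map_smul, hf J K b hb a]

theorem PV_eq {F : FO O} {X : FS G} (f : PV F X) {J K : Subgroup G} (b : (orb J).X →[G] (orb K).X)
    (hb : Function.Bijective b) (a : Ad O K X) (a' : Ad O J X) (h : a'.1 = a.1.comp b) :
    f.1 J a' = mp F b (LM_inj O hb.1) (f.1 K a) := by
  have h1 : a' = a.pre b hb := Subtype.ext h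
  rw [h1]
  exact f.2 J K b hb a

/-- independence of the factorization -/
theorem PV_fac {F : FO O} {X : FS G} (f : PV F X) {K A B : Subgroup G}
    (l : (orb K).X →[G] (orb A).X) (hl : LM O l) (a : Ad O A X)
    (l' : (orb K).X →[G] (orb B).X) (hl' : LM O l') (a' : Ad O B X)
    (h : a.1.comp l = a'.1.comp l') : mp F l hl (f.1 A a) = mp F l' hl' (f.1 B a') := by
  obtain ⟨t, ht, h1, h2⟩ := fac_unique O l a.1 l' a'.1 hl a.2 hl' a'.2 h
  rw [PV_eq f t ht a' a h2.symm]
  subst h1
  rw [mp_comp F l hl t (LM_inj O ht.1)]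

/-- restriction of families -/
noncomputable def rF (F : FO O) {X Y : FS G} (φ : X.X →[G] Y.X) (f : PV F Y) (K : Subgroup G)
    (a : Ad O K X) : ob F K :=
  mp F (exists_fac O (X := Y) (φ.comp a.1)).choose_spec.choose
    (exists_fac O (X := Y) (φ.comp a.1)).choose_spec.choose_spec.choose_spec.1
    (f.1 _ ⟨(exists_fac O (X := Y) (φ.comp a.1)).choose_spec.choose_spec.choose,
      (exists_fac O (X := Y) (φ.comp a.1)).choose_spec.choose_spec.choose_spec.2.1⟩)

theorem rF_eq {F : FO O} {X Y : FS G} (φ : X.X →[G] Y.X) (f : PV F Y) {K A : Subgroup G}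
    (a : Ad O K X) (l : (orb K).X →[G] (orb A).X) (hl : LM O l) (a' : Ad O A Y)
    (h : a'.1.comp l = φ.comp a.1) : rF F φ f K a = mp F l hl (f.1 A a') := by
  unfold rF
  apply PV_fac
  rw [h]
  exact (exists_fac O (X := Y) (φ.comp a.1)).choose_spec.choose_spec.choose_spec.2.2

theorem exists_fac' (O : TS G) {K : Subgroup G} {X : FS G} (f : (orb K).X →[G] X.X) :
    ∃ (A : Subgroup G) (l : (orb K).X →[G] (orb A).X) (hl : LM O l) (a : Ad O A X),
      a.1.comp l = f := by
  obtain ⟨A, l, a, hl, ha, h⟩ := exists_fac O f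
  exact ⟨A, l, hl, ⟨a, ha⟩, h⟩

/-- restriction of families, as an element -/
noncomputable def rP (F : FO O) {X Y : FS G} (φ : X.X →[G] Y.X) : PV F Y →ₗ[ℚ] PV F X where
  toFun f := ⟨fun K a => rF F φ f K a, by
    intro J K b hb a
    obtain ⟨A, l, hl, a', h⟩ := exists_fac' O (X := Y) (φ.comp a.1)
    show rF F φ f J (a.pre b hb) = mp F b _ (rF F φ f K a)
    rw [rF_eq φ f a l hl a' h, rF_eq φ f (a.pre b hb) (l.comp b) (LM_comp O (LM_inj O hb.1) hl) a' ?_]
    · exact mp_comp F b _ l hl _ _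
    · show (a'.1.comp l).comp b = (φ.comp a.1).comp b
      rw [h]⟩
  map_add' f g := by
    apply Subtype.ext
    funext K a
    exact map_add _ _ _
  map_smul' c f := by
    apply Subtype.ext
    funext K a
    exact map_smul _ _ _

theorem rP_eq {F : FO O} {X Y : FS G} (φ : X.X →[G] Y.X) (f : PV F Y) {K A : Subgroup G}
    (a : Ad O K X) (l : (orb K).X →[G] (orb A).X) (hl : LM O l) (a' : Ad O A Y)
    (h : a'.1.comp l = φ.comp a.1) : (rP F φ f).1 K a = mp F l hl (f.1 A a') :=
  rF_eq φ f a l hl a' h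

theorem rP_adm {F : FO O} {X Y : FS G} (φ : X.X →[G] Y.X) (f : PV F Y) {K : Subgroup G}
    (a : Ad O K X) (a' : Ad O K Y) (h : a'.1 = φ.comp a.1) : (rP F φ f).1 K a = f.1 K a' := by
  rw [rP_eq φ f a (MulActionHom.id G) (LM_id O _) a' (by rw [h]; rfl)]
  exact mp_id F _ _ rfl _

/-- lifts -/
abbrev Lf {X Y : FS G} (φ : X.X →[G] Y.X) {K : Subgroup G} (a : Ad O K Y) : Type :=
  {c : Ad O K X // φ.comp c.1 = a.1}

noncomputable instance {X Y : FS G} (φ : X.X →[G] Y.X) {K : Subgroup G} (a : Ad O K Y) :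
    Fintype (Lf φ a) := Fintype.ofFinite _

/-- transfer of families -/
noncomputable def tP (F : FO O) {X Y : FS G} (φ : X.X →[G] Y.X) : PV F X →ₗ[ℚ] PV F Y where
  toFun f := ⟨fun K a => ∑ c : Lf φ a, f.1 K c.1, by
    intro J K b hb a
    rw [map_sum]
    symm
    obtain ⟨b', hb', e1, e2⟩ := exists_inv (X := orb J) (Y := orb K) b hb
    refine Fintype.sum_bijective (fun c : Lf φ a => (⟨c.1.pre b hb, by
      show (φ.comp c.1.1).comp b = a.1.comp b
      rw [c.2]⟩ : Lf φ (a.pre b hb))) ?_ _ _ ?_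
    · constructor
      · intro c d hcd
        have h1 : c.1.1.comp b = d.1.1.comp b := congrArg (fun z : Lf φ (a.pre b hb) => z.1.1) hcd
        apply Subtype.ext
        apply Subtype.ext
        apply DFunLike.ext
        intro x
        obtain ⟨y, rfl⟩ := hb.2 x
        exact DFunLike.congr_fun h1 y
      · rintro ⟨⟨c, hc⟩, hc2⟩
        refine ⟨⟨⟨c.comp b', Adm_comp O (Adm_inj O hb'.1) hc⟩, ?_⟩, ?_⟩
        · show (φ.comp c).comp b' = a.1
          rw [hc2]
          show a.1.comp (b.comp b') = a.1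
          rw [e2]
          rfl
        · apply Subtype.ext
          apply Subtype.ext
          show c.comp (b'.comp b) = c
          rw [e1]
          rfl
    · intro c
      exact (f.2 J K b hb c.1).symm⟩
  map_add' f g := by
    apply Subtype.ext
    funext K a
    exact Finset.sum_add_distrib
  map_smul' r f := by
    apply Subtype.ext
    funext K a
    show ∑ c : Lf φ a, r • f.1 K c.1 = r • ∑ c : Lf φ a, f.1 K c.1
    rw [Finset.smul_sum]

theorem tP_eq {F : FO O} {X Y : FS G} (φ : X.X →[G] Y.X) (f : PV F X) (K : Subgroup G) (a : Ad O K Y) :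
    (tP F φ f).1 K a = ∑ c : Lf φ a, f.1 K c.1 := rfl

theorem rP_comp (F : FO O) {X Y Z : FS G} (φ : X.X →[G] Y.X) (χ : Y.X →[G] Z.X) (f : PV F Z) :
    rP F (χ.comp φ) f = rP F φ (rP F χ f) := by
  apply Subtype.ext
  funext K a
  obtain ⟨A, l, hl, a', h⟩ := exists_fac' O (X := Y) (φ.comp a.1)
  obtain ⟨B, l', hl', a'', h'⟩ := exists_fac' O (X := Z) (χ.comp a'.1)
  rw [rP_eq φ _ a l hl a' h, rP_eq χ _ a' l' hl' a'' h',
    rP_eq (χ.comp φ) f a (l'.comp l) (LM_comp O hl hl') a'' ?_]
  · exact mp_comp F l hl l' hl' _ _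
  · show (a''.1.comp l').comp l = χ.comp (φ.comp a.1)
    rw [h', ← h]
    rfl

theorem tP_comp (F : FO O) {X Y Z : FS G} (φ : X.X →[G] Y.X) (χ : Y.X →[G] Z.X)
    (hφ : Adm O φ) (f : PV F X) :
    tP F (χ.comp φ) f = tP F χ (tP F φ f) := by
  apply Subtype.ext
  funext K a
  rw [tP_eq, tP_eq]
  have h1 : ∀ c : Lf χ a, (tP F φ f).1 K c.1 = ∑ d : Lf φ c.1, f.1 K d.1 := fun c => rfl
  rw [Finset.sum_congr rfl (fun c _ => h1 c), ← Fintype.sum_sigma']
  symm
  refine Fintype.sum_bijective (fun d : (Σ c : Lf χ a, Lf φ c.1) => (⟨d.2.1, by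
    show χ.comp (φ.comp d.2.1.1) = a.1
    rw [d.2.2, d.1.2]⟩ : Lf (χ.comp φ) a)) ?_ _ _ ?_
  · constructor
    · rintro ⟨⟨c, hc⟩, ⟨d, hd⟩⟩ ⟨⟨c', hc'⟩, ⟨d', hd'⟩⟩ h
      have e : d = d' := congrArg (fun z : Lf (χ.comp φ) a => z.1) h
      subst e
      have e2 : c = c' := Subtype.ext (hd.symm.trans hd')
      subst e2
      rfl
    · rintro ⟨d, hd⟩
      have hA : Adm O (φ.comp d.1) := Adm_comp O d.2 hφ
      exact ⟨⟨⟨⟨φ.comp d.1, hA⟩, hd⟩, ⟨d, rfl⟩⟩, rfl⟩
  · intro d
    rfl

theorem tP_id (F : FO O) {X : FS G} (f : PV F X) :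
    tP F (MulActionHom.id G : X.X →[G] X.X) f = f := by
  apply Subtype.ext
  funext K a
  rw [tP_eq]
  have h1 : ∀ c : Lf (MulActionHom.id G : X.X →[G] X.X) a, c.1 = a := fun c => Subtype.ext c.2
  haveI : Unique (Lf (MulActionHom.id G : X.X →[G] X.X) a) :=
    { default := ⟨a, rfl⟩
      uniq := fun c => Subtype.ext (h1 c) }
  rw [Fintype.sum_unique]
  exact congrArg (fun z => f.1 K z) (h1 default)

theorem rP_id (F : FO O) {X : FS G} (f : PV F X) :
    rP F (MulActionHom.id G : X.X →[G] X.X) f = f := by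
  apply Subtype.ext
  funext K a
  exact rP_adm _ f a a rfl

theorem base_PV (F : FO O) {W X Y Z : FS G} (p : W.X →[G] X.X) (q : W.X →[G] Y.X) (f : X.X →[G] Z.X)
    (g : Y.X →[G] Z.X) (hf : Adm O f) (hq : Adm O q) (hPB : IsPB p q f g) (h : PV F X) :
    rP F g (tP F f h) = tP F q (rP F p h) := by
  apply Subtype.ext
  funext K a
  obtain ⟨A, l, hl, b, hb⟩ := exists_fac' O (X := Z) (g.comp a.1)
  rw [rP_eq g _ a l hl b hb, tP_eq, tP_eq, map_sum]
  -- lifts of `b` through `f` and lifts of `a` through `q`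
  have key : ∀ c : Lf f b, ∃! d : Lf q a, p.comp d.1.1 = c.1.1.comp l := by
    intro c
    have h1 : ∀ x, f (c.1.1 (l x)) = g (a.1 x) := by
      intro x
      have e1 : f (c.1.1 (l x)) = b.1 (l x) := DFunLike.congr_fun c.2 (l x)
      have e2 : b.1 (l x) = g (a.1 x) := DFunLike.congr_fun hb x
      rw [e1, e2]
    choose w hw hw2 using fun x => hPB.2 (c.1.1 (l x)) (a.1 x) (h1 x)
    have hws : ∀ (s : G) x, w (s • x) = s • w x := by
      intro s x
      symm
      apply hw2
      refine ⟨?_, ?_⟩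
      · show p (s • w x) = c.1.1 (l (s • x))
        rw [map_smul, map_smul, map_smul, (hw x).1]
      · show q (s • w x) = a.1 (s • x)
        rw [map_smul, map_smul, (hw x).2]
    let d : (orb K).X →[G] W.X := { toFun := w, map_smul' := hws }
    have hd1 : p.comp d = c.1.1.comp l := DFunLike.ext _ _ (fun x => (hw x).1)
    have hd2 : q.comp d = a.1 := DFunLike.ext _ _ (fun x => (hw x).2)
    have hd3 : Adm O d := by
      apply Adm_lift O (Z := Y) (g := q)
      rw [hd2]
      exact a.2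
    refine ⟨⟨⟨d, hd3⟩, hd2⟩, hd1, ?_⟩
    rintro ⟨⟨d', hd'⟩, hd2'⟩ hd1'
    apply Subtype.ext
    apply Subtype.ext
    apply DFunLike.ext
    intro x
    apply hw2
    exact ⟨DFunLike.congr_fun hd1' x, DFunLike.congr_fun hd2' x⟩
  choose θ hθ hθ2 using key
  have hval : ∀ c : Lf f b, (rP F p h).1 K (θ c).1 = mp F l hl (h.1 A c.1) := by
    intro c
    exact rP_eq p h (θ c).1 l hl c.1 (hθ c).symm
  refine Fintype.sum_bijective θ ⟨?_, ?_⟩ _ _ (fun c => (hval c).symm)
  · intro c c' hcc
    have h1 : c.1.1.comp l = c'.1.1.comp l := by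
      rw [← hθ c, ← hθ c', hcc]
    apply Subtype.ext
    apply Subtype.ext
    exact orb_ext (l (o1 K)) (DFunLike.congr_fun h1 (o1 K))
  · intro d
    -- factor `p ∘ d`
    obtain ⟨B, l', hl', e, he⟩ := exists_fac' O (X := X) (p.comp d.1.1)
    have h1 : b.1.comp l = (f.comp e.1).comp l' := by
      rw [hb]
      apply DFunLike.ext
      intro x
      show g (a.1 x) = f (e.1 (l' x))
      have e1 : e.1 (l' x) = p (d.1.1 x) := DFunLike.congr_fun he x
      have e2 : q (d.1.1 x) = a.1 x := DFunLike.congr_fun d.2 x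
      rw [e1, hPB.1, e2]
    obtain ⟨t, ht, ht1, ht2⟩ := fac_unique O l b.1 l' (f.comp e.1) hl b.2 hl' (Adm_comp O e.2 hf) h1
    let c : Lf f b := ⟨⟨e.1.comp t, Adm_comp O (Adm_inj O ht.1) e.2⟩, ht2⟩
    refine ⟨c, ?_⟩
    symm
    apply hθ2 c
    show p.comp d.1.1 = (e.1.comp t).comp l
    rw [← he, ← ht1]
    rfl

/-- the Mackey functor of a functor on the left class -/
noncomputable def Psi (F : FO O) : OMack O where
  V X := ModuleCat.of ℚ (PV F X)
  res φ := rP F φ
  tr φ _ := tP F φ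
  res_id X m := rP_id F m
  res_comp φ χ m := rP_comp F φ χ m
  tr_id X h m := tP_id F m
  tr_comp φ χ hφ hχ h m := tP_comp F φ χ hφ m
  base p q f g hf hq h m := base_PV F p q f g hf hq h m
  empty X hX m := by
    apply Subtype.ext
    funext K a
    exact (hX.false (a.1 (o1 K))).elim
  add := by
    intro A B X i j hs
    obtain ⟨hi, hj, hd, hc⟩ := hs
    have hcase : ∀ {K : Subgroup G} (a : Ad O K X), (∃ a' : Ad O K A, i.comp a'.1 = a.1) ∨
        (∃ a' : Ad O K B, j.comp a'.1 = a.1) := by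
      intro K a
      rcases hc (a.1 (o1 K)) with ⟨y, hy⟩ | ⟨y, hy⟩
      · left
        obtain ⟨s, hs⟩ := exists_map (o1 K) y (by
          rw [← stab_inj i hi y, hy]
          exact stab_le a.1 _)
        have h1 : i.comp s = a.1 := orb_ext (o1 K) (by
          show i (s (o1 K)) = _
          rw [hs, hy])
        exact ⟨⟨s, Adm_lift O (X := orb K) (Y := A) (Z := X) (g := i) (by rw [h1]; exact a.2)⟩, h1⟩
      · right
        obtain ⟨s, hs⟩ := exists_map (o1 K) y (by
          rw [← stab_inj j hj y, hy]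
          exact stab_le a.1 _)
        have h1 : j.comp s = a.1 := orb_ext (o1 K) (by
          show j (s (o1 K)) = _
          rw [hs, hy])
        exact ⟨⟨s, Adm_lift O (X := orb K) (Y := B) (Z := X) (g := j) (by rw [h1]; exact a.2)⟩, h1⟩
    constructor
    · intro f g hfg
      have h1 : rP F i f = rP F i g := congrArg Prod.fst hfg
      have h2 : rP F j f = rP F j g := congrArg Prod.snd hfg
      apply Subtype.ext
      funext K a
      rcases hcase a with ⟨a', ha'⟩ | ⟨a', ha'⟩
      · rw [← rP_adm i f a' a ha'.symm, ← rP_adm i g a' a ha'.symm, h1]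
      · rw [← rP_adm j f a' a ha'.symm, ← rP_adm j g a' a ha'.symm, h2]
    · rintro ⟨f, g⟩
      refine ⟨tP F i f + tP F j g, ?_⟩
      have hii : ∀ {A : FS G} (i : A.X →[G] X.X) (hi : Function.Injective i) (f : PV F A),
          rP F i (tP F i f) = f := by
        intro A i hi f
        have hPB : IsPB (MulActionHom.id G : A.X →[G] A.X) (MulActionHom.id G : A.X →[G] A.X) i i :=
          ⟨fun w => rfl, fun x y hxy => ⟨x, ⟨rfl, hi hxy⟩, fun z hz => hz.1⟩⟩
        rw [base_PV F _ _ i i (Adm_inj O hi) (Adm_id O A) hPB, rP_id, tP_id]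
      have hij : ∀ {A B : FS G} (i : A.X →[G] X.X) (hi : Function.Injective i) (j : B.X →[G] X.X)
          (hd : ∀ a b, i a ≠ j b) (f : PV F A), rP F j (tP F i f) = 0 := by
        intro A B i hi j hd f
        apply Subtype.ext
        funext K a
        obtain ⟨A', l, hl, b, hb⟩ := exists_fac' O (X := X) (j.comp a.1)
        rw [rP_eq j _ a l hl b hb, tP_eq]
        have he : IsEmpty (Lf i b) := by
          constructor
          intro c
          have e1 : i (c.1.1 (l (o1 K))) = b.1 (l (o1 K)) := DFunLike.congr_fun c.2 _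
          have e2 : b.1 (l (o1 K)) = j (a.1 (o1 K)) := DFunLike.congr_fun hb (o1 K)
          exact hd _ _ (e1.trans e2)
        rw [Fintype.sum_empty, map_zero]
        rfl
      apply Prod.ext
      · show rP F i (tP F i f + tP F j g) = f
        rw [map_add, hii i hi, hij j hj i (fun a b h => hd b a h.symm), add_zero]
      · show rP F j (tP F i f + tP F j g) = g
        rw [map_add, hii j hj, hij i hi j hd, zero_add]

end Pool.Agent.X317.MK
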