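import Mathlib
import Pool.Agent.X317.MK.Psi

/-!
# Basic facts on Mackey functors
-/

set_option autoImplicit false
set_option linter.all false

namespace Pool.Agent.X317.MK

open MulAction
open Classical

variable {G : Type} [Group G] [Finite G] {O : TS G}

/-- the pullback -/
def pb {X Y Z : FS G} (f : X.X →[G] Z.X) (g : Y.X →[G] Z.X) : FS G :=
  @FS.mk G _ {w : X.X × Y.X // f w.1 = g w.2}
    { smul := fun a w => ⟨(a • w.1.1, a • w.1.2), by
        show f (a • w.1.1) = g (a • w.1.2)
        rw [map_smul, map_smul, w.2]⟩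
      one_smul := fun w => Subtype.ext (Prod.ext (one_smul G w.1.1) (one_smul G w.1.2))
      mul_smul := fun a b w => Subtype.ext (Prod.ext (mul_smul a b w.1.1) (mul_smul a b w.1.2)) }
    inferInstance

def pb1 {X Y Z : FS G} (f : X.X →[G] Z.X) (g : Y.X →[G] Z.X) : (pb f g).X →[G] X.X :=
  { toFun := fun w => w.1.1, map_smul' := fun _ _ => rfl }

def pb2 {X Y Z : FS G} (f : X.X →[G] Z.X) (g : Y.X →[G] Z.X) : (pb f g).X →[G] Y.X :=
  { toFun := fun w => w.1.2, map_smul' := fun _ _ => rfl }

theorem pb_is {X Y Z : FS G} (f : X.X →[G] Z.X) (g : Y.X →[G] Z.X) : IsPB (pb1 f g) (pb2 f g) f g :=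
  ⟨fun w => w.2, fun x y h => ⟨⟨(x, y), h⟩, ⟨rfl, rfl⟩, fun w hw =>
    Subtype.ext (Prod.ext hw.1 hw.2)⟩⟩

theorem IsPB.symm' {W X Y Z : FS G} {p : W.X →[G] X.X} {q : W.X →[G] Y.X} {f : X.X →[G] Z.X}
    {g : Y.X →[G] Z.X} (h : IsPB p q f g) : IsPB q p g f :=
  ⟨fun w => (h.1 w).symm, fun y x hyx => by
    obtain ⟨w, hw, hw2⟩ := h.2 x y hyx.symm
    exact ⟨w, ⟨hw.2, hw.1⟩, fun z hz => hw2 z ⟨hz.2, hz.1⟩⟩⟩

/-- the complement of an injective map -/
def cpl {A X : FS G} (i : A.X →[G] X.X) : FS G :=
  @FS.mk G _ {y : X.X // ∀ a, i a ≠ y}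
    { smul := fun g y => ⟨g • y.1, fun a h => y.2 (g⁻¹ • a) (by
        rw [map_smul, h, inv_smul_smul])⟩
      one_smul := fun w => Subtype.ext (one_smul G w.1)
      mul_smul := fun a b w => Subtype.ext (mul_smul a b w.1) }
    inferInstance

def cpli {A X : FS G} (i : A.X →[G] X.X) : (cpl i).X →[G] X.X :=
  { toFun := fun y => y.1, map_smul' := fun _ _ => rfl }

theorem cpl_sum {A X : FS G} (i : A.X →[G] X.X) (hi : Function.Injective i) : IsSum i (cpli i) := by
  refine ⟨hi, Subtype.val_injective, fun a b h => b.2 a h, fun x => ?_⟩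
  by_cases h : ∃ a, i a = x
  · exact Or.inl h
  · push Not at h
    exact Or.inr ⟨⟨x, h⟩, rfl⟩

theorem cpl_card {A X : FS G} (i : A.X →[G] X.X) (a : A.X) : Nat.card (cpl i).X < Nat.card X.X := by
  haveI : Fintype X.X := Fintype.ofFinite _
  show Nat.card {y : X.X // ∀ a, i a ≠ y} < Nat.card X.X
  rw [Nat.card_eq_fintype_card, Nat.card_eq_fintype_card]
  exact Fintype.card_subtype_lt (x := i a) (fun h => h a rfl)

/-- the orbit of a point -/
theorem orb_incl {X : FS G} (x : X.X) : ∃ i : (orb (stabilizer G x)).X →[G] X.X,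
    Function.Injective i ∧ i (o1 _) = x := by
  refine ⟨pt x le_rfl, ?_, pt_o1 _ _⟩
  intro a b hab
  obtain ⟨g, rfl⟩ := orb_surj _ a
  obtain ⟨h, rfl⟩ := orb_surj _ b
  rw [map_smul, map_smul, pt_o1] at hab
  have h1 : h⁻¹ * g ∈ stabilizer G x := by
    rw [mem_stabilizer_iff, mul_smul, hab, inv_smul_smul]
  have h2 : h⁻¹ * g ∈ stabilizer G (o1 (stabilizer G x)) := by
    rw [stab_o1]
    exact h1
  rw [mem_stabilizer_iff, mul_smul, inv_smul_eq_iff] at h2
  exact h2

/-- the empty set -/
def emp : FS G :=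
  @FS.mk G _ Empty { smul := fun _ e => e, one_smul := fun e => e.elim, mul_smul := fun _ _ e => e.elim }
    inferInstance

def empm (X : FS G) : (emp : FS G).X →[G] X.X := { toFun := fun e => Empty.elim e, map_smul' := fun _ e => Empty.elim e }

variable (M : OMack O)

theorem tr_congr {X Y : FS G} {f f' : X.X →[G] Y.X} (h : f = f') (hf : Adm O f) (hf' : Adm O f')
    (m : M.V X) : M.tr f hf m = M.tr f' hf' m := by
  subst h
  rfl

theorem res_congr {X Y : FS G} {f f' : X.X →[G] Y.X} (h : f = f') (m : M.V Y) : M.res f m = M.res f' m := by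
  subst h
  rfl

theorem res_tr_inj {X Y : FS G} (s : X.X →[G] Y.X) (hs : Function.Injective s) (h : Adm O s) (m : M.V X) :
    M.res s (M.tr s h m) = m := by
  have hPB : IsPB (MulActionHom.id G : X.X →[G] X.X) (MulActionHom.id G : X.X →[G] X.X) s s :=
    ⟨fun w => rfl, fun x y hxy => ⟨x, ⟨rfl, hs hxy⟩, fun z hz => hz.1⟩⟩
  rw [M.base _ _ s s h (Adm_id O X) hPB, M.res_id, M.tr_id]

theorem tr_res_bij {X Y : FS G} (s : X.X →[G] Y.X) (hs : Function.Bijective s) (h : Adm O s) (m : M.V Y) :
    M.tr s h (M.res s m) = m := by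
  have hPB : IsPB s s (MulActionHom.id G : Y.X →[G] Y.X) (MulActionHom.id G : Y.X →[G] Y.X) := by
    refine ⟨fun w => rfl, fun x y hxy => ?_⟩
    obtain ⟨w, hw⟩ := hs.2 x
    exact ⟨w, ⟨hw, hw.trans hxy⟩, fun z hz => hs.1 (hz.1.trans hw.symm)⟩
  rw [← M.base s s _ _ (Adm_id O Y) h hPB, M.res_id, M.tr_id]

theorem res_tr_disj {A B X : FS G} (i : A.X →[G] X.X) (j : B.X →[G] X.X) (hd : ∀ a b, i a ≠ j b)
    (hi : Adm O i) (m : M.V A) : M.res j (M.tr i hi m) = 0 := by
  have hPB : IsPB (empm A) (empm B) i j := ⟨fun w => Empty.elim w, fun x y hxy => (hd x y hxy).elim⟩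
  have hq : Adm O (empm B) := fun w => Empty.elim w
  rw [M.base _ _ i j hi hq hPB, M.empty emp ⟨fun e => Empty.elim e⟩ (M.res (empm A) m), map_zero]

theorem split {A B X : FS G} (i : A.X →[G] X.X) (j : B.X →[G] X.X) (hs : IsSum i j) (m : M.V X) :
    m = M.tr i (Adm_inj O hs.1) (M.res i m) + M.tr j (Adm_inj O hs.2.1) (M.res j m) := by
  apply (M.add i j hs).1
  apply Prod.ext
  · show M.res i m = M.res i (_ + _)
    rw [map_add, res_tr_inj M i hs.1, res_tr_disj M j i (fun a b h => hs.2.2.1 b a h.symm), add_zero]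
  · show M.res j m = M.res j (_ + _)
    rw [map_add, res_tr_inj M j hs.2.1, res_tr_disj M i j hs.2.2.1, zero_add]

/-- strict maps -/
def Str {W X : FS G} (f : W.X →[G] X.X) : Prop := ∀ w, stabilizer G w ≠ stabilizer G (f w)

theorem Str_comp {V W X : FS G} {f : W.X →[G] X.X} (h : Str f) (g : V.X →[G] W.X) : Str (f.comp g) := by
  intro w hw
  have h1 := stab_le g w
  have h2 := stab_le f (g w)
  apply h (g w)
  apply le_antisymm h2
  have h3 : stabilizer G (f (g w)) = stabilizer G w := hw.symm
  rw [h3]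
  exact h1

theorem Str_comp' {V W X : FS G} {f : W.X →[G] X.X} {g : V.X →[G] W.X} (h : Str g) : Str (f.comp g) := by
  intro w hw
  have h1 := stab_le g w
  have h2 := stab_le f (g w)
  apply h w
  apply le_antisymm h1
  have h3 : stabilizer G w = stabilizer G (f (g w)) := hw
  rw [h3]
  exact h2

/-- the span of proper transfers -/
def TT (X : FS G) : Submodule ℚ (M.V X) :=
  Submodule.span ℚ {y | ∃ (W : FS G) (f : W.X →[G] X.X) (hf : Adm O f) (_ : Str f) (z : M.V W),
    y = M.tr f hf z}

theorem tr_mem {W X : FS G} (f : W.X →[G] X.X) (hf : Adm O f) (hs : Str f) (z : M.V W) :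
    M.tr f hf z ∈ TT M X := Submodule.subset_span ⟨W, f, hf, hs, z, rfl⟩

/-- sections -/
abbrev Sec {W : FS G} {K : Subgroup G} (q : W.X →[G] (orb K).X) : Type :=
  {s : (orb K).X →[G] W.X // ∀ x, q (s x) = x}

noncomputable instance {W : FS G} {K : Subgroup G} (q : W.X →[G] (orb K).X) : Fintype (Sec q) :=
  haveI : Finite (Sec q) := Subtype.finite
  Fintype.ofFinite _

theorem Str_of_noSec {W : FS G} {K : Subgroup G} (q : W.X →[G] (orb K).X) (h : IsEmpty (Sec q)) : Str q := by
  intro w hw
  obtain ⟨s, hs⟩ := exists_map (q w) w (le_of_eq hw.symm)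
  apply h.false
  refine ⟨s, ?_⟩
  have h1 : q.comp s = MulActionHom.id G := orb_ext (q w) (by
    show q (s (q w)) = q w
    rw [hs])
  exact fun x => DFunLike.congr_fun h1 x

theorem tr_sec (n : ℕ) : ∀ (W : FS G) (K : Subgroup G) (q : W.X →[G] (orb K).X) (hq : Adm O q) (x : M.V W),
    Nat.card W.X ≤ n → M.tr q hq x - ∑ s : Sec q, M.res s.1 x ∈ TT M (orb K) := by
  induction n with
  | zero =>
    intro W K q hq x hn
    have hE : IsEmpty W.X := by
      rw [← Finite.card_eq_zero_iff]
      omega
    rw [M.empty W hE x, map_zero]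
    have : ∑ s : Sec q, M.res s.1 (0 : M.V W) = 0 := Finset.sum_eq_zero (fun s _ => map_zero _)
    rw [this, sub_zero]
    exact Submodule.zero_mem _
  | succ n ih =>
    intro W K q hq x hn
    by_cases hsec : IsEmpty (Sec q)
    · rw [Fintype.sum_empty, sub_zero]
      exact tr_mem M q hq (Str_of_noSec q hsec) x
    · rw [not_isEmpty_iff] at hsec
      obtain ⟨s, hs⟩ := hsec
      have hinj : Function.Injective s := fun a b hab => by rw [← hs a, ← hs b, hab]
      let j := cpli s
      have hsum := cpl_sum s hinj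
      have hj : Adm O (q.comp j) := Adm_comp O (Adm_inj O hsum.2.1) hq
      have hcard := cpl_card s (o1 K)
      have h1 := ih (cpl s) K (q.comp j) hj (M.res j x) (by omega)
      have h2 : M.tr q hq x = M.res s x + M.tr (q.comp j) hj (M.res j x) := by
        conv_lhs => rw [split M s j hsum x]
        rw [map_add, ← M.tr_comp j q _ hq hj]
        congr 1
        have h3 : q.comp s = MulActionHom.id G := DFunLike.ext _ _ hs
        have h4 : Adm O (q.comp s) := by
          rw [h3]
          exact Adm_id O _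
        rw [← M.tr_comp s q _ hq h4, tr_congr M h3 h4 (Adm_id O _), M.tr_id]
      have h5 : ∑ t : Sec q, M.res t.1 x = M.res s x + ∑ t : Sec (q.comp j), M.res t.1 (M.res j x) := by
        rw [← Finset.add_sum_erase Finset.univ _ (Finset.mem_univ (⟨s, hs⟩ : Sec q))]
        congr 1
        symm
        refine Finset.sum_bij (fun t _ => (⟨j.comp t.1, t.2⟩ : Sec q)) ?_ ?_ ?_ ?_
        · intro t _
          rw [Finset.mem_erase]
          refine ⟨?_, Finset.mem_univ _⟩
          intro h
          have h6 : j (t.1 (o1 K)) = s (o1 K) := congrArg (fun z : Sec q => z.1 (o1 K)) h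
          exact hsum.2.2.1 (o1 K) (t.1 (o1 K)) h6.symm
        · intro t _ t' _ h
          apply Subtype.ext
          apply DFunLike.ext
          intro y
          apply hsum.2.1
          exact congrArg (fun z : Sec q => z.1 y) h
        · intro t ht
          rw [Finset.mem_erase] at ht
          have h6 : ∀ y a, s a ≠ t.1 y := by
            intro y a hay
            apply ht.1
            apply Subtype.ext
            have e1 : a = y := by rw [← hs a, hay, t.2]
            subst e1
            exact orb_ext a hay.symm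
          refine ⟨⟨{ toFun := fun y => ⟨t.1 y, h6 y⟩, map_smul' := ?_ }, ?_⟩, Finset.mem_univ _, ?_⟩
          · intro g y
            apply Subtype.ext
            exact map_smul t.1 g y
          · exact t.2
          · apply Subtype.ext
            apply DFunLike.ext
            intro y
            rfl
        · intro t _
          exact (M.res_comp t.1 j x).symm
      rw [h2, h5]
      have h6 : M.res s x + M.tr (q.comp j) hj (M.res j x) -
          (M.res s x + ∑ t : Sec (q.comp j), M.res t.1 (M.res j x)) =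
          M.tr (q.comp j) hj (M.res j x) - ∑ t : Sec (q.comp j), M.res t.1 (M.res j x) := by abel
      rw [h6]
      exact h1

/-- the operators `tr ∘ res` along proper maps -/
def SA (X : FS G) : Submodule ℚ (Module.End ℚ (M.V X)) :=
  Submodule.span ℚ {A | ∃ (W : FS G) (f : W.X →[G] X.X) (hf : Adm O f) (_ : Str f),
    A = (M.tr f hf).comp (M.res f)}

theorem SA_gen {W X : FS G} (f : W.X →[G] X.X) (hf : Adm O f) (hs : Str f) :
    (M.tr f hf).comp (M.res f) ∈ SA M X := Submodule.subset_span ⟨W, f, hf, hs, rfl⟩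

theorem gen_mul {V W X : FS G} (f : V.X →[G] X.X) (hf : Adm O f) (g : W.X →[G] X.X) (hg : Adm O g) :
    ∀ h : Adm O (f.comp (pb1 f g)),
    ((M.tr f hf).comp (M.res f)) * ((M.tr g hg).comp (M.res g)) =
      (M.tr (f.comp (pb1 f g)) h).comp (M.res (f.comp (pb1 f g))) ∧
    ((M.tr g hg).comp (M.res g)) * ((M.tr f hf).comp (M.res f)) =
      (M.tr (f.comp (pb1 f g)) h).comp (M.res (f.comp (pb1 f g))) := by
  intro h
  have hP := pb_is f g
  have e : f.comp (pb1 f g) = g.comp (pb2 f g) := DFunLike.ext _ _ hP.1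
  have hp : Adm O (pb1 f g) := Adm_base O hP.symm' hg
  have hq : Adm O (pb2 f g) := Adm_base O hP hf
  constructor
  · apply LinearMap.ext
    intro m
    show M.tr f hf (M.res f (M.tr g hg (M.res g m))) = M.tr (f.comp (pb1 f g)) h (M.res (f.comp (pb1 f g)) m)
    rw [M.base _ _ g f hg hp hP.symm', ← M.res_comp, ← M.tr_comp _ _ hp hf h, res_congr M e]
  · apply LinearMap.ext
    intro m
    show M.tr g hg (M.res g (M.tr f hf (M.res f m))) = M.tr (f.comp (pb1 f g)) h (M.res (f.comp (pb1 f g)) m)
    rw [M.base _ _ f g hf hq hP, ← M.res_comp]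
    rw [← M.tr_comp _ _ hq hg (by rw [← e]; exact h)]
    exact (tr_congr M e h _ _).symm

theorem SA_mul {X : FS G} {a b : Module.End ℚ (M.V X)} (ha : a ∈ SA M X) (hb : b ∈ SA M X) :
    a * b ∈ SA M X ∧ a * b = b * a := by
  have key : ∀ a ∈ SA M X, ∀ b ∈ SA M X, a * b ∈ SA M X ∧ a * b = b * a := by
    intro a ha
    induction ha using Submodule.span_induction with
    | mem a ha =>
      obtain ⟨V, f, hf, hfs, rfl⟩ := ha
      intro b hb
      induction hb using Submodule.span_induction with
      | mem b hb =>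
        obtain ⟨W, g, hg, hgs, rfl⟩ := hb
        have hp : Adm O (pb1 f g) := Adm_base O (pb_is f g).symm' hg
        obtain ⟨h1, h2⟩ := gen_mul M f hf g hg (Adm_comp O hp hf)
        rw [h1, h2]
        exact ⟨SA_gen M _ _ (Str_comp hfs _), rfl⟩
      | zero => simp
      | add x y _ _ hx hy =>
        rw [mul_add, add_mul]
        exact ⟨Submodule.add_mem _ hx.1 hy.1, by rw [hx.2, hy.2]⟩
      | smul c x _ hx =>
        rw [mul_smul_comm, smul_mul_assoc]
        exact ⟨Submodule.smul_mem _ c hx.1, by rw [hx.2]⟩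
    | zero => intro b hb; simp
    | add x y _ _ hx hy =>
      intro b hb
      rw [mul_add, add_mul]
      exact ⟨Submodule.add_mem _ (hx b hb).1 (hy b hb).1, by rw [(hx b hb).2, (hy b hb).2]⟩
    | smul c x _ hx =>
      intro b hb
      rw [mul_smul_comm, smul_mul_assoc]
      exact ⟨Submodule.smul_mem _ c (hx b hb).1, by rw [(hx b hb).2]⟩
  exact key a ha b hb

/-- elements fixed by such an operator -/
def Gd {X : FS G} (n : M.V X) : Prop := ∃ a ∈ SA M X, a n = n

theorem Gd_zero {X : FS G} : Gd M (0 : M.V X) := ⟨0, Submodule.zero_mem _, rfl⟩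

theorem Gd_add {X : FS G} {m n : M.V X} (hm : Gd M m) (hn : Gd M n) : Gd M (m + n) := by
  obtain ⟨a, ha, ham⟩ := hm
  obtain ⟨b, hb, hbn⟩ := hn
  refine ⟨a + b - a * b, Submodule.sub_mem _ (Submodule.add_mem _ ha hb) (SA_mul M ha hb).1, ?_⟩
  have h1 : (a * b) m = b m := by
    rw [(SA_mul M ha hb).2]
    show b (a m) = b m
    rw [ham]
  have h2 : (a * b) n = a n := by
    show a (b n) = a n
    rw [hbn]
  rw [LinearMap.sub_apply, LinearMap.add_apply, map_add, map_add, map_add, h1, h2, ham, hbn]
  abel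

theorem Gd_smul {X : FS G} {m : M.V X} (c : ℚ) (hm : Gd M m) : Gd M (c • m) := by
  obtain ⟨a, ha, ham⟩ := hm
  exact ⟨a, ha, by rw [map_smul, ham]⟩

theorem card_stab_orb {K : Subgroup G} (x : (orb K).X) : Nat.card (stabilizer G x) = Nat.card K := by
  obtain ⟨g, rfl⟩ := orb_surj K x
  rw [stabilizer_smul_eq_stabilizer_map_conj, stab_o1]
  exact Subgroup.card_map_of_injective (MulAut.conj g).injective

theorem endo_bij {K : Subgroup G} (s : (orb K).X →[G] (orb K).X) : Function.Bijective s := by
  apply Finite.surjective_iff_bijective.1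
  intro y
  obtain ⟨g, hg⟩ := orb_trans K (s (o1 K)) y
  exact ⟨g • o1 K, by rw [map_smul, hg]⟩

theorem stab_lt {W X : FS G} {f : W.X →[G] X.X} (hs : Str f) (w : W.X) :
    Nat.card (stabilizer G w) < Nat.card (stabilizer G (f w)) := by
  have h1 := stab_le f w
  have h2 := hs w
  have h3 : (stabilizer G w) < (stabilizer G (f w)) := lt_of_le_of_ne h1 h2
  have h4 : ((stabilizer G w : Set G)).ncard < ((stabilizer G (f w) : Set G)).ncard :=
    Set.ncard_lt_ncard h3 (Set.toFinite _)
  exact h4

theorem Gd_tr (n : ℕ) : ∀ (X W : FS G) (f : W.X →[G] X.X) (hf : Adm O f) (_ : Str f) (z : M.V W),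
    (∀ w : W.X, Nat.card (stabilizer G w) < n) → Gd M (M.tr f hf z) := by
  induction n with
  | zero =>
    intro X W f hf hs z hn
    have hE : IsEmpty W.X := ⟨fun w => absurd (hn w) (Nat.not_lt_zero _)⟩
    rw [M.empty W hE z, map_zero]
    exact Gd_zero M
  | succ n ih =>
    -- the case of an orbit
    have horb : ∀ (X : FS G) (K : Subgroup G) (f : (orb K).X →[G] X.X) (hf : Adm O f) (_ : Str f)
        (z : M.V (orb K)), Nat.card K < n + 1 → Gd M (M.tr f hf z) := by
      intro X K f hf hs z hK
      have hP := pb_is f f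
      have hq : Adm O (pb2 f f) := Adm_base O hP hf
      have h1 := tr_sec M _ (pb f f) K (pb2 f f) hq (M.res (pb1 f f) z) le_rfl
      set t := M.tr (pb2 f f) hq (M.res (pb1 f f) z) - ∑ s : Sec (pb2 f f), M.res s.1 (M.res (pb1 f f) z) with ht
      have h2 : ∀ s : Sec (pb2 f f), M.tr f hf (M.res s.1 (M.res (pb1 f f) z)) = M.tr f hf z := by
        intro s
        rw [← M.res_comp]
        have hb := endo_bij ((pb1 f f).comp s.1)
        have e : f.comp ((pb1 f f).comp s.1) = f := by
          apply DFunLike.ext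
          intro x
          show f (pb1 f f (s.1 x)) = f x
          rw [hP.1, s.2]
        have h3 : Adm O (f.comp ((pb1 f f).comp s.1)) := by
          rw [e]
          exact hf
        have h4 := M.tr_comp ((pb1 f f).comp s.1) f (Adm_inj O hb.1) hf h3
          (M.res ((pb1 f f).comp s.1) z)
        rw [tr_res_bij M _ hb] at h4
        rw [← h4]
        exact tr_congr M e.symm hf h3 _
      have h3 : ((M.tr f hf).comp (M.res f)) (M.tr f hf z) =
          (Fintype.card (Sec (pb2 f f)) : ℚ) • M.tr f hf z + M.tr f hf t := by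
        show M.tr f hf (M.res f (M.tr f hf z)) = _
        rw [M.base _ _ f f hf hq hP]
        have h5 : M.tr (pb2 f f) hq (M.res (pb1 f f) z) =
            ∑ s : Sec (pb2 f f), M.res s.1 (M.res (pb1 f f) z) + t := by
          rw [ht]
          abel
        rw [h5, map_add, map_sum, Finset.sum_congr rfl (fun s _ => h2 s), Finset.sum_const,
          Finset.card_univ, Nat.cast_smul_eq_nsmul]
      have hdiag : Nonempty (Sec (pb2 f f)) :=
        ⟨⟨{ toFun := fun x => ⟨(x, x), rfl⟩, map_smul' := fun _ _ => rfl }, fun x => rfl⟩⟩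
      have hc : (Fintype.card (Sec (pb2 f f)) : ℚ) ≠ 0 := by
        have := Fintype.card_pos_iff.2 hdiag
        positivity
      set c : ℚ := (Fintype.card (Sec (pb2 f f)) : ℚ) with hcdef
      -- `tr f t` is good
      have hgt : ∀ t ∈ TT M (orb K), Gd M (M.tr f hf t) := by
        intro t ht
        induction ht using Submodule.span_induction with
        | mem y hy =>
          obtain ⟨W', g, hg, hgs, z', rfl⟩ := hy
          rw [← M.tr_comp g f hg hf (Adm_comp O hg hf)]
          apply ih X W' _ _ (Str_comp' hgs)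
          intro w
          have h6 := stab_lt hgs w
          rw [card_stab_orb] at h6
          omega
        | zero => rw [map_zero]; exact Gd_zero M
        | add x y _ _ hx hy => rw [map_add]; exact Gd_add M hx hy
        | smul c x _ hx => rw [map_smul]; exact Gd_smul M c hx
      obtain ⟨a, ha, hat⟩ := hgt t h1
      set A := (M.tr f hf).comp (M.res f) with hA
      have hAm : A ∈ SA M X := SA_gen M f hf hs
      set m := M.tr f hf z with hm
      refine ⟨c⁻¹ • A + a - c⁻¹ • (a * A), ?_, ?_⟩
      · exact Submodule.sub_mem _ (Submodule.add_mem _ (Submodule.smul_mem _ _ hAm) ha)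
          (Submodule.smul_mem _ _ (SA_mul M ha hAm).1)
      · rw [LinearMap.sub_apply, LinearMap.add_apply, LinearMap.smul_apply, LinearMap.smul_apply]
        show c⁻¹ • A m + a m - c⁻¹ • a (A m) = m
        rw [h3, map_add, map_smul, hat, smul_add, smul_add, smul_smul, smul_smul, inv_mul_cancel₀ hc,
          one_smul, one_smul]
        abel
    have hall : ∀ (d : ℕ) (X W : FS G) (f : W.X →[G] X.X) (hf : Adm O f) (_ : Str f) (z : M.V W),
        Nat.card W.X ≤ d → (∀ w : W.X, Nat.card (stabilizer G w) < n + 1) → Gd M (M.tr f hf z) := by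
      intro d
      induction d with
      | zero =>
        intro X W f hf hs z hd hn
        have hE : IsEmpty W.X := by
          rw [← Finite.card_eq_zero_iff]
          omega
        rw [M.empty W hE z, map_zero]
        exact Gd_zero M
      | succ d ihd =>
        intro X W f hf hs z hd hn
        by_cases hE : IsEmpty W.X
        · rw [M.empty W hE z, map_zero]
          exact Gd_zero M
        · rw [not_isEmpty_iff] at hE
          obtain ⟨w⟩ := hE
          obtain ⟨i, hi, hiw⟩ := orb_incl w
          have hsum := cpl_sum i hi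
          rw [split M i (cpli i) hsum z, map_add]
          rw [← M.tr_comp i f _ hf (Adm_comp O (Adm_inj O hsum.1) hf),
            ← M.tr_comp (cpli i) f _ hf (Adm_comp O (Adm_inj O hsum.2.1) hf)]
          apply Gd_add
          · exact horb X _ _ _ (Str_comp hs _) _ (hn w)
          · have h5 := cpl_card i (o1 _)
            apply ihd X (cpl i) _ _ (Str_comp hs _) _ (by omega)
            intro v
            have h6 := hn (cpli i v)
            rw [stab_inj (cpli i) hsum.2.1 v] at h6
            exact h6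
    intro X W f hf hs z hn
    exact hall _ X W f hf hs z le_rfl hn

theorem Gd_TT {X : FS G} {n : M.V X} (h : n ∈ TT M X) : Gd M n := by
  induction h using Submodule.span_induction with
  | mem y hy =>
    obtain ⟨W, f, hf, hs, z, rfl⟩ := hy
    exact Gd_tr M (Nat.card G + 1) X W f hf hs z (fun w => by
      have := Subgroup.card_le_card_group (stabilizer G w)
      omega)
  | zero => exact Gd_zero M
  | add x y _ _ hx hy => exact Gd_add M hx hy
  | smul c x _ hx => exact Gd_smul M c hx

end Pool.Agent.X317.MK
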