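import Mathlib
import Pool.Agent.X317.MK.Mk

/-!
# Mackey functors and functors on the left class
-/

set_option autoImplicit false
set_option linter.all false

namespace Pool.Agent.X317.MK

open MulAction CategoryTheory
open Classical

variable {G : Type} [Group G] [Finite G] {O : TS G}

section
variable (M : OMack O)

theorem Gd_fam (N : ∀ X, Submodule ℚ (M.V X))
    (hres : ∀ {X Y : FS G} (f : X.X →[G] Y.X) (m : M.V Y), m ∈ N Y → M.res f m ∈ N X)
    {X : FS G} {m : M.V X} (hm : m ∈ N X) (hG : Gd M m) :
    m ∈ Submodule.span ℚ {y | ∃ (W : FS G) (f : W.X →[G] X.X) (hf : Adm O f) (_ : Str f) (z : M.V W),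
      z ∈ N W ∧ y = M.tr f hf z} := by
  obtain ⟨a, ha, ham⟩ := hG
  have key : ∀ a ∈ SA M X, a m ∈ Submodule.span ℚ {y | ∃ (W : FS G) (f : W.X →[G] X.X)
      (hf : Adm O f) (_ : Str f) (z : M.V W), z ∈ N W ∧ y = M.tr f hf z} := by
    intro a ha
    induction ha using Submodule.span_induction with
    | mem a ha =>
      obtain ⟨W, f, hf, hs, rfl⟩ := ha
      exact Submodule.subset_span ⟨W, f, hf, hs, M.res f m, hres f m hm, rfl⟩
    | zero => exact Submodule.zero_mem _
    | add x y _ _ hx hy => exact Submodule.add_mem _ hx hy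
    | smul c x _ hx => exact Submodule.smul_mem _ c hx
  rw [← ham]
  exact key a ha

theorem fam_zero (N : ∀ X, Submodule ℚ (M.V X))
    (hres : ∀ {X Y : FS G} (f : X.X →[G] Y.X) (m : M.V Y), m ∈ N Y → M.res f m ∈ N X)
    (horb : ∀ K : Subgroup G, ∀ m ∈ N (orb K), m ∈ TT M (orb K)) :
    ∀ X, ∀ m ∈ N X, m = 0 := by
  have key : ∀ n : ℕ, ∀ (d : ℕ) (X : FS G), Nat.card X.X ≤ d →
      (∀ w : X.X, Nat.card (stabilizer G w) < n) → ∀ m ∈ N X, m = 0 := by
    intro n
    induction n with
    | zero =>
      intro d X _ hn m _
      exact M.empty X ⟨fun w => absurd (hn w) (Nat.not_lt_zero _)⟩ m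
    | succ n ih =>
      intro d
      induction d with
      | zero =>
        intro X hd hn m _
        apply M.empty X
        rw [← Finite.card_eq_zero_iff]
        omega
      | succ d ihd =>
        intro X hd hn m hm
        by_cases hE : IsEmpty X.X
        · exact M.empty X hE m
        · rw [not_isEmpty_iff] at hE
          obtain ⟨w⟩ := hE
          obtain ⟨i, hi, hiw⟩ := orb_incl w
          have hsum := cpl_sum i hi
          have h1 : M.res (cpli i) m = 0 := by
            have h5 := cpl_card i (o1 _)
            apply ihd (cpl i) (by omega) _ _ (hres _ _ hm)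
            intro v
            have h6 := hn (cpli i v)
            rw [stab_inj (cpli i) hsum.2.1 v] at h6
            exact h6
          have h2 : M.res i m = 0 := by
            have h3 := horb _ _ (hres i m hm)
            have h4 := Gd_fam M N hres (hres i m hm) (Gd_TT M h3)
            have h5 : ∀ y ∈ Submodule.span ℚ {y | ∃ (W : FS G) (f : W.X →[G] (orb (stabilizer G w)).X)
                (hf : Adm O f) (_ : Str f) (z : M.V W), z ∈ N W ∧ y = M.tr f hf z}, y = 0 := by
              intro y hy
              induction hy using Submodule.span_induction with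
              | mem y hy =>
                obtain ⟨W, f, hf, hs, z, hz, rfl⟩ := hy
                have h6 : z = 0 := by
                  apply ih _ W le_rfl _ z hz
                  intro v
                  have h7 := stab_lt hs v
                  rw [card_stab_orb] at h7
                  have h8 := hn w
                  omega
                rw [h6, map_zero]
              | zero => rfl
              | add x y _ _ hx hy => rw [hx, hy, add_zero]
              | smul c x _ hx => rw [hx, smul_zero]
            exact h5 _ h4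
          rw [split M i (cpli i) hsum m, h1, h2, map_zero, map_zero, add_zero]
  intro X m hm
  exact key (Nat.card G + 1) _ X le_rfl (fun w => by
    have := Subgroup.card_le_card_group (stabilizer G w)
    omega) m hm

theorem fam_top (C : ∀ X, Submodule ℚ (M.V X))
    (htr : ∀ {X Y : FS G} (f : X.X →[G] Y.X) (hf : Adm O f) (m : M.V X), m ∈ C X → M.tr f hf m ∈ C Y)
    (horb : ∀ K : Subgroup G, ∀ m : M.V (orb K), ∃ c ∈ C (orb K), m - c ∈ TT M (orb K)) :
    ∀ X, ∀ m, m ∈ C X := by
  have key : ∀ n : ℕ, ∀ (d : ℕ) (X : FS G), Nat.card X.X ≤ d →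
      (∀ w : X.X, Nat.card (stabilizer G w) < n) → ∀ m, m ∈ C X := by
    intro n
    induction n with
    | zero =>
      intro d X _ hn m
      rw [M.empty X ⟨fun w => absurd (hn w) (Nat.not_lt_zero _)⟩ m]
      exact Submodule.zero_mem _
    | succ n ih =>
      intro d
      induction d with
      | zero =>
        intro X hd hn m
        have hE : IsEmpty X.X := by
          rw [← Finite.card_eq_zero_iff]
          omega
        rw [M.empty X hE m]
        exact Submodule.zero_mem _
      | succ d ihd =>
        intro X hd hn m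
        by_cases hE : IsEmpty X.X
        · rw [M.empty X hE m]
          exact Submodule.zero_mem _
        · rw [not_isEmpty_iff] at hE
          obtain ⟨w⟩ := hE
          obtain ⟨i, hi, hiw⟩ := orb_incl w
          have hsum := cpl_sum i hi
          have h1 : M.res (cpli i) m ∈ C (cpl i) := by
            have h5 := cpl_card i (o1 _)
            apply ihd (cpl i) (by omega)
            intro v
            have h6 := hn (cpli i v)
            rw [stab_inj (cpli i) hsum.2.1 v] at h6
            exact h6
          have h2 : M.res i m ∈ C (orb (stabilizer G w)) := by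
            obtain ⟨c, hc, h3⟩ := horb _ (M.res i m)
            have h5 : ∀ y ∈ TT M (orb (stabilizer G w)), y ∈ C (orb (stabilizer G w)) := by
              intro y hy
              induction hy using Submodule.span_induction with
              | mem y hy =>
                obtain ⟨W, f, hf, hs, z, rfl⟩ := hy
                apply htr
                apply ih _ W le_rfl
                intro v
                have h7 := stab_lt hs v
                rw [card_stab_orb] at h7
                have h8 := hn w
                omega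
              | zero => exact Submodule.zero_mem _
              | add x y _ _ hx hy => exact Submodule.add_mem _ hx hy
              | smul c x _ hx => exact Submodule.smul_mem _ c hx
            have h6 := Submodule.add_mem _ hc (h5 _ h3)
            rw [add_sub_cancel] at h6
            exact h6
          rw [split M i (cpli i) hsum m]
          exact Submodule.add_mem _ (htr _ _ _ h2) (htr _ _ _ h1)
  intro X m
  exact key (Nat.card G + 1) _ X le_rfl (fun w => by
    have := Subgroup.card_le_card_group (stabilizer G w)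
    omega) m

theorem TT_res {J H : Subgroup G} (l : (orb J).X →[G] (orb H).X) (hl : LM O l) :
    TT M (orb H) ≤ (TT M (orb J)).comap (M.res l) := by
  apply Submodule.span_le.2
  rintro y ⟨W, f, hf, hs, z, rfl⟩
  show M.res l (M.tr f hf z) ∈ TT M (orb J)
  have hP := pb_is f l
  have hq : Adm O (pb2 f l) := Adm_base O hP hf
  rw [M.base _ _ f l hf hq hP]
  apply tr_mem
  intro w hw
  have h1 : stabilizer G (pb2 f l w) ≤ stabilizer G (pb1 f l w) := by
    rw [← hw]
    exact stab_le (pb1 f l) w
  have h2 : O.rel (stabilizer G (pb1 f l w)) (stabilizer G (l (pb2 f l w))) := by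
    rw [← hP.1 w]
    exact hf _
  have h3 := (hl (pb2 f l w)).2 _ h2 h1
  apply hs (pb1 f l w)
  rw [h3, hP.1 w]

/-- the functor of quotients by proper transfers -/
noncomputable def Phi : FO O where
  obj K := ModuleCat.of ℚ (M.V (orb K.unop.K) ⧸ TT M (orb K.unop.K))
  map f := ModuleCat.ofHom (Submodule.mapQ _ _ (M.res f.unop.1) (TT_res M f.unop.1 f.unop.2))
  map_id K := by
    apply ModuleCat.hom_ext
    apply LinearMap.ext
    intro x
    obtain ⟨m, rfl⟩ := Submodule.mkQ_surjective _ x
    show Submodule.mkQ _ (M.res (MulActionHom.id G) m) = Submodule.mkQ _ m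
    rw [M.res_id]
  map_comp f g := by
    apply ModuleCat.hom_ext
    apply LinearMap.ext
    intro x
    obtain ⟨m, rfl⟩ := Submodule.mkQ_surjective _ x
    show Submodule.mkQ _ (M.res (f.unop.1.comp g.unop.1) m) = Submodule.mkQ _ (M.res g.unop.1 (M.res f.unop.1 m))
    rw [M.res_comp]

/-- class of an element -/
noncomputable def cls (K : Subgroup G) : M.V (orb K) →ₗ[ℚ] ob (Phi M) K := Submodule.mkQ _

theorem cls_surj (K : Subgroup G) : Function.Surjective (cls M K) := Submodule.mkQ_surjective _

theorem cls_zero {K : Subgroup G} {m : M.V (orb K)} : cls M K m = 0 ↔ m ∈ TT M (orb K) :=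
  Submodule.Quotient.mk_eq_zero _

theorem mp_cls {J H : Subgroup G} (l : (orb J).X →[G] (orb H).X) (hl : LM O l) (m : M.V (orb H)) :
    mp (Phi M) l hl (cls M H m) = cls M J (M.res l m) := rfl

/-- the unit -/
noncomputable def etaV (X : FS G) : M.V X →ₗ[ℚ] PV (Phi M) X where
  toFun m := ⟨fun K a => cls M K (M.res a.1 m), by
    intro J K b hb a
    show cls M J (M.res (a.1.comp b) m) = mp (Phi M) b _ (cls M K (M.res a.1 m))
    rw [mp_cls, M.res_comp]⟩
  map_add' m n := by
    apply Subtype.ext
    funext K a
    show cls M K (M.res a.1 (m + n)) = cls M K (M.res a.1 m) + cls M K (M.res a.1 n)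
    rw [map_add, map_add]
  map_smul' c m := by
    apply Subtype.ext
    funext K a
    show cls M K (M.res a.1 (c • m)) = c • cls M K (M.res a.1 m)
    rw [map_smul, map_smul]

theorem etaV_apply {X : FS G} (m : M.V X) (K : Subgroup G) (a : Ad O K X) :
    (etaV M X m).1 K a = cls M K (M.res a.1 m) := rfl

theorem etaV_res {X Y : FS G} (f : X.X →[G] Y.X) (m : M.V Y) :
    etaV M X (M.res f m) = rP (Phi M) f (etaV M Y m) := by
  apply Subtype.ext
  funext K a
  obtain ⟨A, l, hl, a', h⟩ := exists_fac' O (X := Y) (f.comp a.1)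
  rw [rP_eq f _ a l hl a' h, etaV_apply, etaV_apply, mp_cls, ← M.res_comp, ← M.res_comp]
  rw [res_congr M h]

theorem etaV_tr {X Y : FS G} (f : X.X →[G] Y.X) (hf : Adm O f) (m : M.V X) :
    etaV M Y (M.tr f hf m) = tP (Phi M) f (etaV M X m) := by
  apply Subtype.ext
  funext K a
  rw [tP_eq, etaV_apply]
  have hP := pb_is f a.1
  have hq : Adm O (pb2 f a.1) := Adm_base O hP hf
  rw [M.base _ _ f a.1 hf hq hP]
  have h1 := tr_sec M _ (pb f a.1) K (pb2 f a.1) hq (M.res (pb1 f a.1) m) le_rfl
  have h2 : cls M K (M.tr (pb2 f a.1) hq (M.res (pb1 f a.1) m)) =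
      ∑ s : Sec (pb2 f a.1), cls M K (M.res s.1 (M.res (pb1 f a.1) m)) := by
    rw [← map_sum, ← sub_eq_zero, ← map_sub]
    exact (cls_zero M).2 h1
  rw [h2]
  refine Fintype.sum_bijective (fun s : Sec (pb2 f a.1) => (⟨⟨(pb1 f a.1).comp s.1, ?_⟩, ?_⟩ : Lf f a)) ?_ _ _ ?_
  · apply Adm_lift O (X := orb K) (Y := X) (Z := Y) (g := f)
    have : f.comp ((pb1 f a.1).comp s.1) = a.1 := by
      apply DFunLike.ext
      intro x
      show f (pb1 f a.1 (s.1 x)) = a.1 x
      rw [hP.1, s.2]
    rw [this]
    exact a.2
  · apply DFunLike.ext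
    intro x
    show f (pb1 f a.1 (s.1 x)) = a.1 x
    rw [hP.1, s.2]
  · constructor
    · intro s t hst
      apply Subtype.ext
      apply DFunLike.ext
      intro x
      apply Subtype.ext
      apply Prod.ext
      · exact congrArg (fun z : Lf f a => z.1.1 x) hst
      · exact (s.2 x).trans (t.2 x).symm
    · intro c
      refine ⟨⟨{ toFun := fun x => ⟨(c.1.1 x, x), DFunLike.congr_fun c.2 x⟩, map_smul' := ?_ }, fun x => rfl⟩, ?_⟩
      · intro g x
        apply Subtype.ext
        apply Prod.ext
        · exact map_smul c.1.1 g x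
        · rfl
      · apply Subtype.ext
        apply Subtype.ext
        apply DFunLike.ext
        intro x
        rfl
  · intro s
    rw [etaV_apply]
    show cls M K (M.res s.1 (M.res (pb1 f a.1) m)) = cls M K (M.res ((pb1 f a.1).comp s.1) m)
    rw [M.res_comp]

end

/-- the identity as an admissible map -/
def idA (O : TS G) (K : Subgroup G) : Ad O K (orb K) := ⟨MulActionHom.id G, Adm_id O _⟩

/-- the family generated by one element -/
noncomputable def hh {F : FO O} (J : Subgroup G) (v : ob F J) : PV F (orb J) :=
  ⟨fun L b => if h : Function.Bijective b.1 then mp F b.1 (LM_inj O h.1) v else 0, by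
    intro L K b hb a
    show (if h : Function.Bijective (a.1.comp b) then mp F (a.1.comp b) (LM_inj O h.1) v else 0) =
      mp F b _ (if h : Function.Bijective a.1 then mp F a.1 (LM_inj O h.1) v else 0)
    by_cases ha : Function.Bijective a.1
    · have hab : Function.Bijective (a.1.comp b) := ha.comp hb
      rw [dif_pos ha, dif_pos hab]
      exact mp_comp F b _ a.1 _ _ v
    · have hab : ¬ Function.Bijective (a.1.comp b) := by
        intro h
        apply ha
        have h1 : Function.Bijective (a.1 ∘ b) := h
        exact (Function.Bijective.of_comp_iff _ hb).1 h1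
      rw [dif_neg ha, dif_neg hab, map_zero]⟩

theorem hh_id {F : FO O} (J : Subgroup G) (v : ob F J) : (hh J v : PV F (orb J)).1 J (idA O J) = v := by
  have h : Function.Bijective (idA O J).1 := Function.bijective_id
  show (if h : Function.Bijective (idA O J).1 then mp F (idA O J).1 (LM_inj O h.1) v else 0) = v
  rw [dif_pos h]
  exact mp_id F _ _ rfl v

theorem tr_hh {F : FO O} {X : FS G} (f : PV F X) (J : Subgroup G) (a : Ad O J X) (L : Subgroup G)
    (b : Ad O L X) : (tP F a.1 (hh J (f.1 J a))).1 L b =
      ((Finset.univ.filter (fun c : Lf a.1 b => Function.Bijective c.1.1)).card : ℚ) • f.1 L b := by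
  rw [tP_eq]
  have h1 : ∀ c : Lf a.1 b, (hh J (f.1 J a)).1 L c.1 = if Function.Bijective c.1.1 then f.1 L b else 0 := by
    intro c
    show (if h : Function.Bijective c.1.1 then mp F c.1.1 (LM_inj O h.1) (f.1 J a) else 0) = _
    by_cases h : Function.Bijective c.1.1
    · rw [dif_pos h, if_pos h]
      exact (PV_eq f c.1.1 h a b c.2.symm).symm
    · rw [dif_neg h, if_neg h]
  rw [Finset.sum_congr rfl (fun c _ => h1 c), ← Finset.sum_filter, Finset.sum_const,
    Nat.cast_smul_eq_nsmul]

theorem PV_span {F : FO O} {X : FS G} (S : Submodule ℚ (PV F X)) (n : ℕ) : ∀ (f : PV F X),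
    Nat.card {z : Σ J : Subgroup G, Ad O J X // f.1 z.1 z.2 ≠ 0} ≤ n →
    (∀ (J : Subgroup G) (a : Ad O J X), f.1 J a ≠ 0 → ∀ v : ob F J, tP F a.1 (hh J v) ∈ S) → f ∈ S := by
  induction n with
  | zero =>
    intro f hn _
    have h0 : f = 0 := by
      apply Subtype.ext
      funext J a
      by_contra h
      haveI : Nonempty {z : Σ J : Subgroup G, Ad O J X // f.1 z.1 z.2 ≠ 0} := ⟨⟨⟨J, a⟩, h⟩⟩
      have := Nat.card_pos (α := {z : Σ J : Subgroup G, Ad O J X // f.1 z.1 z.2 ≠ 0})
      omega
    rw [h0]
    exact Submodule.zero_mem _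
  | succ n ih =>
    intro f hn hS
    by_cases hE : ∀ (J : Subgroup G) (a : Ad O J X), f.1 J a = 0
    · have h0 : f = 0 := by
        apply Subtype.ext
        funext J a
        exact hE J a
      rw [h0]
      exact Submodule.zero_mem _
    · push Not at hE
      obtain ⟨J, a, hJa⟩ := hE
      let N : ∀ (L : Subgroup G) (b : Ad O L X), ℚ := fun L b =>
        ((Finset.univ.filter (fun c : Lf a.1 b => Function.Bijective c.1.1)).card : ℚ)
      have hN : N J a ≠ 0 := by
        have : 0 < (Finset.univ.filter (fun c : Lf a.1 a => Function.Bijective c.1.1)).card := by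
          apply Finset.card_pos.2
          refine ⟨⟨idA O J, rfl⟩, ?_⟩
          rw [Finset.mem_filter]
          exact ⟨Finset.mem_univ _, Function.bijective_id⟩
        show ((Finset.univ.filter (fun c : Lf a.1 a => Function.Bijective c.1.1)).card : ℚ) ≠ 0
        positivity
      let t := tP F a.1 (hh J (f.1 J a))
      let f' := f - (N J a)⁻¹ • t
      have hf' : ∀ L b, f'.1 L b = (1 - (N J a)⁻¹ * N L b) • f.1 L b := by
        intro L b
        show f.1 L b - (N J a)⁻¹ • t.1 L b = _
        rw [tr_hh f J a L b, smul_smul, sub_smul, one_smul]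
      have hsub : ∀ L b, f'.1 L b ≠ 0 → f.1 L b ≠ 0 := by
        intro L b h h0
        apply h
        rw [hf', h0, smul_zero]
      have hzero : f'.1 J a = 0 := by
        rw [hf', inv_mul_cancel₀ hN, sub_self, zero_smul]
      have hcard : Nat.card {z : Σ J : Subgroup G, Ad O J X // f'.1 z.1 z.2 ≠ 0} <
          Nat.card {z : Σ J : Subgroup G, Ad O J X // f.1 z.1 z.2 ≠ 0} := by
        have h1 : {z : Σ J : Subgroup G, Ad O J X | f'.1 z.1 z.2 ≠ 0}.ncard <
            {z : Σ J : Subgroup G, Ad O J X | f.1 z.1 z.2 ≠ 0}.ncard := by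
          apply Set.ncard_lt_ncard _ (Set.toFinite _)
          refine ⟨fun z hz => hsub _ _ hz, fun h => ?_⟩
          have h2 : (⟨J, a⟩ : Σ J : Subgroup G, Ad O J X) ∈ {z : Σ J : Subgroup G, Ad O J X | f'.1 z.1 z.2 ≠ 0} :=
            h hJa
          exact h2 hzero
        exact h1
      have h3 : f' ∈ S := ih f' (by omega) (fun L b h v => hS L b (hsub L b h) v)
      have h4 : f = f' + (N J a)⁻¹ • t := by
        show f = f - (N J a)⁻¹ • t + (N J a)⁻¹ • t
        rw [sub_add_cancel]
      rw [h4]
      exact Submodule.add_mem _ h3 (Submodule.smul_mem _ _ (hS J a hJa _))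

theorem Str_or_bij {L K : Subgroup G} (f : (orb L).X →[G] (orb K).X) : Str f ∨ Function.Bijective f := by
  by_cases h : Str f
  · exact Or.inl h
  · right
    unfold Str at h
    push Not at h
    obtain ⟨w, hw⟩ := h
    obtain ⟨s, hs⟩ := exists_map (f w) w (le_of_eq hw.symm)
    have h1 : s.comp f = MulActionHom.id G := orb_ext w hs
    have h2 : f.comp s = MulActionHom.id G := orb_ext (f w) (by
      show f (s (f w)) = f w
      rw [hs])
    refine ⟨fun x y hxy => ?_, fun x => ⟨s x, DFunLike.congr_fun h2 x⟩⟩
    have e1 : s (f x) = x := DFunLike.congr_fun h1 x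
    have e2 : s (f y) = y := DFunLike.congr_fun h1 y
    rw [← e1, hxy, e2]

/-- a family over an orbit with vanishing value at the identity is a sum of proper transfers -/
theorem PV_id {F : FO O} {K : Subgroup G} (g : PV F (orb K)) (h : g.1 K (idA O K) = 0) :
    g ∈ TT (Psi F) (orb K) := by
  refine PV_span (TT (Psi F) (orb K)) _ g le_rfl ?_
  intro J a hJa v
  rcases Str_or_bij a.1 with hs | hb
  · exact tr_mem (Psi F) a.1 a.2 hs (hh J v)
  · exfalso
    apply hJa
    rw [PV_eq g a.1 hb (idA O K) a rfl, h, map_zero]

section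
variable (M : OMack O)

theorem etaV_inj (X : FS G) : Function.Injective (etaV M X) := by
  rw [injective_iff_map_eq_zero]
  intro m hm
  refine fam_zero M (fun X => LinearMap.ker (etaV M X)) ?_ ?_ X m hm
  · intro X Y f m hm
    show etaV M X (M.res f m) = 0
    have hm' : etaV M Y m = 0 := hm
    rw [etaV_res, hm', map_zero]
  · intro K m hm
    have hm' : etaV M (orb K) m = 0 := hm
    have h1 : (etaV M (orb K) m).1 K (idA O K) = 0 := by
      rw [hm']
      rfl
    rw [etaV_apply] at h1
    have h2 : M.res (idA O K).1 m = m := M.res_id _ m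
    rw [h2] at h1
    exact (cls_zero M).1 h1

theorem etaV_surj (X : FS G) : Function.Surjective (etaV M X) := by
  intro f
  have h := fam_top (Psi (Phi M)) (fun X => LinearMap.range (etaV M X)) ?_ ?_ X f
  · exact h
  · rintro X Y f hf _ ⟨m, rfl⟩
    exact ⟨M.tr f hf m, etaV_tr M f hf m⟩
  · intro K f
    obtain ⟨m, hm⟩ := cls_surj M K ((f : PV (Phi M) (orb K)).1 K (idA O K))
    refine ⟨etaV M (orb K) m, ⟨m, rfl⟩, ?_⟩
    apply PV_id
    show (f : PV (Phi M) (orb K)).1 K (idA O K) - (etaV M (orb K) m).1 K (idA O K) = 0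
    have h2 : M.res (idA O K).1 m = m := M.res_id _ m
    rw [etaV_apply, h2, hm, sub_self]

end

end Pool.Agent.X317.MK
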