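import Mathlib
import Pool.Agent.X317.MK.Eq
import Pool.Agent.X317.GD.Cat

/-!
# Projective dimensions of Mackey functors and of functors on the left class
-/

set_option autoImplicit false
set_option linter.all false

namespace Pool.Agent.X317.MK

open MulAction CategoryTheory CategoryTheory.Limits
open Classical

variable {G : Type} [Group G] [Finite G] {O : TS G}

/-- component -/
abbrev ev {F F' : FO O} (η : F ⟶ F') (K : Subgroup G) : ob F K →ₗ[ℚ] ob F' K :=
  (η.app (Opposite.op ⟨K⟩)).hom

theorem ev_mp {F F' : FO O} (η : F ⟶ F') {J H : Subgroup G} (f : (orb J).X →[G] (orb H).X)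
    (hf : LM O f) (x : ob F H) : ev η J (mp F f hf x) = mp F' f hf (ev η H x) := by
  have h := η.naturality (Quiver.Hom.op (X := (⟨J⟩ : LO O)) (Y := ⟨H⟩) ⟨f, hf⟩)
  exact congrArg (fun g => ModuleCat.Hom.hom g x) h

/-- the map on families -/
noncomputable def PVm {F F' : FO O} (η : F ⟶ F') (X : FS G) : PV F X →ₗ[ℚ] PV F' X where
  toFun f := ⟨fun K a => ev η K (f.1 K a), by
    intro J K b hb a
    show ev η J (f.1 J (a.pre b hb)) = mp F' b _ (ev η K (f.1 K a))
    rw [f.2 J K b hb a, ev_mp]⟩
  map_add' f g := by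
    apply Subtype.ext
    funext K a
    exact map_add _ _ _
  map_smul' c f := by
    apply Subtype.ext
    funext K a
    exact map_smul _ _ _

theorem PVm_res {F F' : FO O} (η : F ⟶ F') {X Y : FS G} (f : X.X →[G] Y.X) (m : PV F Y) :
    PVm η X (rP F f m) = rP F' f (PVm η Y m) := by
  apply Subtype.ext
  funext K a
  obtain ⟨A, l, hl, a', h⟩ := exists_fac' O (X := Y) (f.comp a.1)
  show ev η K ((rP F f m).1 K a) = (rP F' f (PVm η Y m)).1 K a
  rw [rP_eq f _ a l hl a' h, rP_eq f _ a l hl a' h, ev_mp]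
  rfl

theorem PVm_tr {F F' : FO O} (η : F ⟶ F') {X Y : FS G} (f : X.X →[G] Y.X) (m : PV F X) :
    PVm η Y (tP F f m) = tP F' f (PVm η X m) := by
  apply Subtype.ext
  funext K a
  show ev η K ((tP F f m).1 K a) = (tP F' f (PVm η X m)).1 K a
  rw [tP_eq, tP_eq, map_sum]
  rfl

/-- the morphism of Mackey functors -/
noncomputable def Psim {F F' : FO O} (η : F ⟶ F') : MHom (Psi F) (Psi F') where
  app X := PVm η X
  res f m := PVm_res η f m
  tr f hf m := PVm_tr η f m

theorem PVm_hh {F F' : FO O} (η : F ⟶ F') (J : Subgroup G) (v : ob F J) :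
    PVm η (orb J) (hh J v) = hh J (ev η J v) := by
  apply Subtype.ext
  funext L b
  show ev η L (if h : Function.Bijective b.1 then mp F b.1 (LM_inj O h.1) v else 0) =
    (if h : Function.Bijective b.1 then mp F' b.1 (LM_inj O h.1) (ev η J v) else 0)
  by_cases h : Function.Bijective b.1
  · rw [dif_pos h, dif_pos h, ev_mp]
  · rw [dif_neg h, dif_neg h, map_zero]

theorem ev_surj {F F' : FO O} (η : F ⟶ F') [Epi η] (K : Subgroup G) : Function.Surjective (ev η K) := by
  have h := (NatTrans.epi_iff_epi_app η).1 inferInstance (Opposite.op ⟨K⟩)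
  exact (ModuleCat.epi_iff_surjective _).1 h

theorem PVm_surj {F F' : FO O} (η : F ⟶ F') [Epi η] (X : FS G) : Function.Surjective (PVm η X) := by
  intro f
  have h : f ∈ LinearMap.range (PVm η X) := by
    refine PV_span _ _ f le_rfl ?_
    intro J a _ v
    obtain ⟨v', rfl⟩ := ev_surj η J v
    refine ⟨tP F a.1 (hh J v'), ?_⟩
    have h1 := (Psim η).tr a.1 a.2 (hh J v')
    rw [← PVm_hh]
    exact h1
  exact h

/-- a section of a strict map does not exist -/
theorem no_sec {W : FS G} {K : Subgroup G} {f : W.X →[G] (orb K).X} (hf : Str f)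
    (c : (orb K).X →[G] W.X) (h : f.comp c = MulActionHom.id G) : False := by
  have h1 : f (c (o1 K)) = o1 K := DFunLike.congr_fun h (o1 K)
  apply hf (c (o1 K))
  apply le_antisymm (stab_le f _)
  rw [h1]
  exact stab_le c _

theorem tP_str {F : FO O} {K : Subgroup G} {W : FS G} {f : W.X →[G] (orb K).X} (hs : Str f)
    (z : PV F W) : (tP F f z).1 K (idA O K) = 0 := by
  rw [tP_eq]
  apply Finset.sum_eq_zero
  intro c _
  exact (no_sec hs c.1.1 c.2).elim

theorem TT_id {F : FO O} {K : Subgroup G} (g : (Psi F).V (orb K)) (h : g ∈ TT (Psi F) (orb K)) :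
    (g : PV F (orb K)).1 K (idA O K) = 0 := by
  have key : ∀ g ∈ TT (Psi F) (orb K), (g : PV F (orb K)).1 K (idA O K) = 0 := by
    intro g hg
    induction hg using Submodule.span_induction with
    | mem y hy =>
      obtain ⟨W, f, hf, hs, z, rfl⟩ := hy
      exact tP_str hs z
    | zero => rfl
    | add x y _ _ hx hy =>
      show (x : PV F (orb K)).1 K (idA O K) + (y : PV F (orb K)).1 K (idA O K) = 0
      rw [hx, hy, add_zero]
    | smul c x _ hx =>
      show c • (x : PV F (orb K)).1 K (idA O K) = 0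
      rw [hx, smul_zero]
  exact key g h

theorem TT_map {M N : OMack O} (l : MHom M N) {X : FS G} {m : M.V X} (hm : m ∈ TT M X) :
    l.app X m ∈ TT N X := by
  have key : TT M X ≤ (TT N X).comap (l.app X) := by
    apply Submodule.span_le.2
    rintro y ⟨W, f, hf, hs, z, rfl⟩
    show l.app X (M.tr f hf z) ∈ TT N X
    rw [l.tr]
    exact tr_mem N f hf hs _
  exact key hm

/-- evaluation at the identity -/
noncomputable def evid (F : FO O) (K : Subgroup G) : (Psi F).V (orb K) →ₗ[ℚ] ob F K where
  toFun g := (g : PV F (orb K)).1 K (idA O K)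
  map_add' g h := rfl
  map_smul' c g := rfl

/-- flat of a morphism into `Psi F` -/
noncomputable def flat {M : OMack O} {F : FO O} (l : MHom M (Psi F)) : Phi M ⟶ F where
  app K := ModuleCat.ofHom ((TT M (orb K.unop.K)).liftQ ((evid F K.unop.K).comp (l.app (orb K.unop.K))) (by
    intro m hm
    exact TT_id _ (TT_map l hm)))
  naturality := by
    intro H J f
    apply ModuleCat.hom_ext
    apply LinearMap.ext
    intro x
    obtain ⟨m, rfl⟩ := Submodule.mkQ_surjective _ x
    show (l.app (orb J.unop.K) (M.res f.unop.1 m) : PV F (orb J.unop.K)).1 J.unop.K (idA O J.unop.K) =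
      mp F f.unop.1 f.unop.2 ((l.app (orb H.unop.K) m : PV F (orb H.unop.K)).1 H.unop.K (idA O H.unop.K))
    rw [l.res]
    exact rP_eq f.unop.1 (l.app (orb H.unop.K) m) (idA O J.unop.K) f.unop.1 f.unop.2 (idA O H.unop.K) rfl

theorem flat_cls {M : OMack O} {F : FO O} (l : MHom M (Psi F)) (K : Subgroup G) (m : M.V (orb K)) :
    ev (flat l) K (cls M K m) = (l.app (orb K) m : PV F (orb K)).1 K (idA O K) := rfl

/-- identity and composition -/
def MHom.id' (M : OMack O) : MHom M M := ⟨fun X => LinearMap.id, fun _ _ => rfl, fun _ _ _ => rfl⟩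

def MHom.comp' {M N L : OMack O} (g : MHom N L) (f : MHom M N) : MHom M L where
  app X := (g.app X).comp (f.app X)
  res := by
    intro X Y φ m
    show g.app X (f.app X (M.res φ m)) = _
    rw [f.res, g.res]
    rfl
  tr := by
    intro X Y φ h m
    show g.app Y (f.app Y (M.tr φ h m)) = _
    rw [f.tr, g.tr]
    rfl

/-- the induced morphism on quotients -/
noncomputable def Phim {M N : OMack O} (g : MHom M N) : Phi M ⟶ Phi N where
  app K := ModuleCat.ofHom (Submodule.mapQ _ _ (g.app (orb K.unop.K)) (fun m hm => TT_map g hm))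
  naturality := by
    intro H J f
    apply ModuleCat.hom_ext
    apply LinearMap.ext
    intro x
    obtain ⟨m, rfl⟩ := Submodule.mkQ_surjective _ x
    show Submodule.mkQ _ (g.app (orb J.unop.K) (M.res f.unop.1 m)) =
      Submodule.mkQ _ (N.res f.unop.1 (g.app (orb H.unop.K) m))
    rw [g.res]

theorem Phim_cls {M N : OMack O} (g : MHom M N) (K : Subgroup G) (m : M.V (orb K)) :
    ev (Phim g) K (cls M K m) = cls N K (g.app (orb K) m) := rfl

theorem Phim_epi {M N : OMack O} (g : MHom M N) (hg : ∀ X, Function.Surjective (g.app X)) : Epi (Phim g) := by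
  rw [NatTrans.epi_iff_epi_app]
  intro K
  apply (ModuleCat.epi_iff_surjective _).2
  intro x
  obtain ⟨n, rfl⟩ := Submodule.mkQ_surjective _ x
  obtain ⟨m, rfl⟩ := hg _ n
  exact ⟨Submodule.mkQ _ m, rfl⟩

/-- the unit as a morphism -/
noncomputable def eta (M : OMack O) : MHom M (Psi (Phi M)) where
  app X := etaV M X
  res f m := etaV_res M f m
  tr f hf m := etaV_tr M f hf m

theorem eta_bij (M : OMack O) (X : FS G) : Function.Bijective ((eta M).app X) :=
  ⟨etaV_inj M X, etaV_surj M X⟩

/-- the inverse of a pointwise bijective morphism -/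
noncomputable def MHom.inv {M N : OMack O} (g : MHom M N) (hg : ∀ X, Function.Bijective (g.app X)) : MHom N M where
  app X := (LinearEquiv.ofBijective (g.app X) (hg X)).symm.toLinearMap
  res := by
    intro X Y f m
    apply (hg X).1
    show g.app X ((LinearEquiv.ofBijective (g.app X) (hg X)).symm (N.res f m)) =
      g.app X (M.res f ((LinearEquiv.ofBijective (g.app Y) (hg Y)).symm m))
    have h1 : ∀ X m, g.app X ((LinearEquiv.ofBijective (g.app X) (hg X)).symm m) = m := fun X m =>
      LinearEquiv.apply_symm_apply (LinearEquiv.ofBijective (g.app X) (hg X)) m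
    rw [h1, g.res, h1]
  tr := by
    intro X Y f hf m
    apply (hg Y).1
    show g.app Y ((LinearEquiv.ofBijective (g.app Y) (hg Y)).symm (N.tr f hf m)) =
      g.app Y (M.tr f hf ((LinearEquiv.ofBijective (g.app X) (hg X)).symm m))
    have h1 : ∀ X m, g.app X ((LinearEquiv.ofBijective (g.app X) (hg X)).symm m) = m := fun X m =>
      LinearEquiv.apply_symm_apply (LinearEquiv.ofBijective (g.app X) (hg X)) m
    rw [h1, g.tr, h1]

theorem MHom.app_inv {M N : OMack O} (g : MHom M N) (hg : ∀ X, Function.Bijective (g.app X)) (X : FS G)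
    (n : N.V X) : g.app X ((g.inv hg).app X n) = n :=
  LinearEquiv.apply_symm_apply (LinearEquiv.ofBijective (g.app X) (hg X)) n

theorem MHom.inv_app {M N : OMack O} (g : MHom M N) (hg : ∀ X, Function.Bijective (g.app X)) (X : FS G)
    (m : M.V X) : (g.inv hg).app X (g.app X m) = m :=
  LinearEquiv.symm_apply_apply (LinearEquiv.ofBijective (g.app X) (hg X)) m

theorem eta_nat {M N : OMack O} (g : MHom M N) (X : FS G) (m : M.V X) :
    (Psim (Phim g)).app X ((eta M).app X m) = (eta N).app X (g.app X m) := by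
  apply Subtype.ext
  funext K a
  show ev (Phim g) K (cls M K (M.res a.1 m)) = cls N K (N.res a.1 (g.app X m))
  rw [Phim_cls, g.res]

theorem Psim_comp {F F' F'' : FO O} (η : F ⟶ F') (θ : F' ⟶ F'') (X : FS G) (m : (Psi F).V X) :
    (Psim (η ≫ θ)).app X m = (Psim θ).app X ((Psim η).app X m) := rfl

/-- `Phi` reflects projectivity -/
theorem isProj_of (M : OMack O) (h : Projective (Phi M)) : IsProj M := by
  intro A B g f hg
  haveI := Phim_epi g hg
  let l : Phi M ⟶ Phi A := Projective.factorThru (Phim f) (Phim g)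
  have hl : l ≫ Phim g = Phim f := Projective.factorThru_comp _ _
  refine ⟨MHom.comp' ((eta A).inv (eta_bij A)) (MHom.comp' (Psim l) (eta M)), ?_⟩
  intro X m
  apply (eta_bij B X).1
  show (eta B).app X (g.app X (((eta A).inv (eta_bij A)).app X ((Psim l).app X ((eta M).app X m)))) =
    (eta B).app X (f.app X m)
  rw [← eta_nat g, MHom.app_inv, ← Psim_comp, hl, eta_nat f]

/-- `Phi` preserves projectivity -/
theorem proj_Phi (M : OMack O) (h : IsProj M) : Projective (Phi M) := by
  constructor
  intro F F'' φ q hq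
  obtain ⟨l, hl⟩ := h (Psi F) (Psi F'') (Psim q) (MHom.comp' (Psim φ) (eta M)) (fun X => PVm_surj q X)
  refine ⟨flat l, ?_⟩
  apply NatTrans.ext
  funext K
  apply ModuleCat.hom_ext
  apply LinearMap.ext
  intro x
  obtain ⟨m, rfl⟩ := Submodule.mkQ_surjective _ x
  have h1 := hl (orb K.unop.K) m
  have h2 : ((Psim q).app (orb K.unop.K) (l.app (orb K.unop.K) m) : PV F'' (orb K.unop.K)).1 K.unop.K (idA O _) =
    ((MHom.comp' (Psim φ) (eta M)).app (orb K.unop.K) m : PV F'' (orb K.unop.K)).1 K.unop.K (idA O _) := by rw [h1]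
  have h3 : ((MHom.comp' (Psim φ) (eta M)).app (orb K.unop.K) m : PV F'' (orb K.unop.K)).1 K.unop.K (idA O _) =
    ev φ K.unop.K (cls M K.unop.K (M.res (idA O K.unop.K).1 m)) := rfl
  have h4 : M.res (idA O K.unop.K).1 m = m := M.res_id _ m
  rw [h3, h4] at h2
  exact h2

/-- the counit -/
noncomputable def eps (F : FO O) : Phi (Psi F) ⟶ F := flat (MHom.id' (Psi F))

instance eps_iso (F : FO O) : IsIso (eps F) := by
  rw [NatTrans.isIso_iff_isIso_app]
  intro K
  rw [ConcreteCategory.isIso_iff_bijective]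
  constructor
  · have h0 : Function.Injective (ev (eps F) K.unop.K) := by
      rw [injective_iff_map_eq_zero]
      intro x hx
      obtain ⟨g, rfl⟩ := cls_surj (Psi F) K.unop.K x
      apply (cls_zero _).2
      exact PV_id g hx
    exact h0
  · intro v
    exact ⟨cls (Psi F) K.unop.K (hh K.unop.K v), hh_id K.unop.K v⟩

end Pool.Agent.X317.MK
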