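import Mathlib
import Pool.Agent.X317.MK.Pd

/-!
# Projective dimensions of Mackey functors and of functors on the left class
-/

set_option autoImplicit false
set_option linter.all false

namespace Pool.Agent.X317.MK

open MulAction CategoryTheory CategoryTheory.Limits
open Classical

variable {G : Type} [Group G] [Finite G] {O : TS G}

theorem SA_nat {A B : OMack O} (i : MHom A B) {X : FS G} (a : Module.End ℚ (B.V X)) (ha : a ∈ SA B X) :
    ∃ a' : Module.End ℚ (A.V X), (∀ m, a' m ∈ TT A X) ∧ ∀ m, i.app X (a' m) = a (i.app X m) := by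
  induction ha using Submodule.span_induction with
  | mem a ha =>
    obtain ⟨W, f, hf, hs, rfl⟩ := ha
    refine ⟨(A.tr f hf).comp (A.res f), fun m => tr_mem A f hf hs _, fun m => ?_⟩
    show i.app X (A.tr f hf (A.res f m)) = B.tr f hf (B.res f (i.app X m))
    rw [i.tr, i.res]
  | zero => exact ⟨0, fun m => Submodule.zero_mem _, fun m => map_zero _⟩
  | add x y _ _ hx hy =>
    obtain ⟨x', hx1, hx2⟩ := hx
    obtain ⟨y', hy1, hy2⟩ := hy
    exact ⟨x' + y', fun m => Submodule.add_mem _ (hx1 m) (hy1 m), fun m => by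
      show i.app X (x' m + y' m) = x (i.app X m) + y (i.app X m)
      rw [map_add, hx2, hy2]⟩
  | smul c x _ hx =>
    obtain ⟨x', hx1, hx2⟩ := hx
    exact ⟨c • x', fun m => Submodule.smul_mem _ c (hx1 m), fun m => by
      show i.app X (c • x' m) = c • x (i.app X m)
      rw [map_smul, hx2]⟩

theorem TT_refl {A B : OMack O} (i : MHom A B) (hi : ∀ X, Function.Injective (i.app X)) {X : FS G}
    {n : A.V X} (h : i.app X n ∈ TT B X) : n ∈ TT A X := by
  obtain ⟨a, ha, han⟩ := Gd_TT B h
  obtain ⟨a', h1, h2⟩ := SA_nat i a ha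
  have h3 : a' n = n := hi X (by rw [h2, han])
  rw [← h3]
  exact h1 n

theorem TT_lift {A B : OMack O} (p : MHom A B) (hp : ∀ X, Function.Surjective (p.app X)) {X : FS G}
    {y : B.V X} (h : y ∈ TT B X) : ∃ y' ∈ TT A X, p.app X y' = y := by
  induction h using Submodule.span_induction with
  | mem y hy =>
    obtain ⟨W, f, hf, hs, z, rfl⟩ := hy
    obtain ⟨z', rfl⟩ := hp W z
    exact ⟨A.tr f hf z', tr_mem A f hf hs _, p.tr f hf z'⟩
  | zero => exact ⟨0, Submodule.zero_mem _, map_zero _⟩
  | add x y _ _ hx hy =>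
    obtain ⟨x', hx1, rfl⟩ := hx
    obtain ⟨y', hy1, rfl⟩ := hy
    exact ⟨x' + y', Submodule.add_mem _ hx1 hy1, map_add _ _ _⟩
  | smul c x _ hx =>
    obtain ⟨x', hx1, rfl⟩ := hx
    exact ⟨c • x', Submodule.smul_mem _ c hx1, map_smul _ _ _⟩

theorem Phi_se {A B C : OMack O} (i : MHom A B) (p : MHom B C) (hi : ∀ X, Function.Injective (i.app X))
    (hp : ∀ X, Function.Surjective (p.app X)) (he : ∀ X m, p.app X m = 0 ↔ ∃ k, i.app X k = m) :
    ∃ (w : Phim i ≫ Phim p = 0), (ShortComplex.mk (Phim i) (Phim p) w).ShortExact := by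
  have w : Phim i ≫ Phim p = 0 := by
    apply NatTrans.ext
    funext K
    apply ModuleCat.hom_ext
    apply LinearMap.ext
    intro x
    obtain ⟨m, rfl⟩ := Submodule.mkQ_surjective _ x
    show Submodule.mkQ _ (p.app (orb K.unop.K) (i.app (orb K.unop.K) m)) = 0
    rw [(he _ _).2 ⟨m, rfl⟩, map_zero]
  refine ⟨w, { exact := ?_, mono_f := ?_, epi_g := Phim_epi p hp }⟩
  · apply GD.exact_of_ev
    intro K
    rw [ShortComplex.moduleCat_exact_iff]
    intro x hx
    obtain ⟨m, rfl⟩ := Submodule.mkQ_surjective _ x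
    have h1 : Submodule.mkQ (TT C (orb K.unop.K)) (p.app (orb K.unop.K) m) = 0 := hx
    have h2 : p.app (orb K.unop.K) m ∈ TT C (orb K.unop.K) := (Submodule.Quotient.mk_eq_zero _).1 h1
    obtain ⟨y, hy1, hy2⟩ := TT_lift p hp h2
    have h3 : p.app (orb K.unop.K) (m - y) = 0 := by rw [map_sub, hy2, sub_self]
    obtain ⟨k, hk⟩ := (he _ _).1 h3
    refine ⟨Submodule.mkQ _ k, ?_⟩
    show Submodule.mkQ (TT B (orb K.unop.K)) (i.app (orb K.unop.K) k) = Submodule.mkQ _ m
    rw [hk, map_sub]
    have h4 : Submodule.mkQ (TT B (orb K.unop.K)) y = 0 := (Submodule.Quotient.mk_eq_zero _).2 hy1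
    rw [h4, sub_zero]
  · rw [NatTrans.mono_iff_mono_app]
    intro K
    apply (ModuleCat.mono_iff_injective _).2
    have h0 : Function.Injective (ev (Phim i) K.unop.K) := by
      rw [injective_iff_map_eq_zero]
      intro x hx
      obtain ⟨m, rfl⟩ := cls_surj A K.unop.K x
      rw [Phim_cls] at hx
      apply (cls_zero A).2
      exact TT_refl i hi ((cls_zero B).1 hx)
    exact h0

theorem pd_to (n : ℕ) : ∀ M : OMack O, pdLE n M → HasProjectiveDimensionLT (Phi M) (n + 1) := by
  induction n with
  | zero =>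
    intro M h
    show HasProjectiveDimensionLT (Phi M) 1
    rw [← projective_iff_hasProjectiveDimensionLT_one]
    exact proj_Phi M h
  | succ n ih =>
    rintro M ⟨K, P, i, p, hP, hi, hp, he, hK⟩
    obtain ⟨w, hS⟩ := Phi_se i p hi hp he
    exact (hS.hasProjectiveDimensionLT_X₃_iff n (proj_Phi P hP)).2 (ih K hK)

theorem pd_from (n : ℕ) : ∀ M : OMack O, HasProjectiveDimensionLT (Phi M) (n + 1) → pdLE n M := by
  induction n with
  | zero =>
    intro M h
    have h' : HasProjectiveDimensionLT (Phi M) 1 := h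
    rw [← projective_iff_hasProjectiveDimensionLT_one] at h'
    exact isProj_of M h'
  | succ n ih =>
    intro M h
    obtain ⟨P, hP, π, hπ⟩ := GD.enough (Phi M)
    let S : ShortComplex (FO O) := ShortComplex.mk (kernel.ι π) π (kernel.condition π)
    have hS : S.ShortExact :=
      { exact := ShortComplex.exact_of_f_is_kernel _ (kernelIsKernel π)
        mono_f := inferInstance
        epi_g := hπ }
    have h1 : HasProjectiveDimensionLT S.X₁ (n + 1) :=
      (hS.hasProjectiveDimensionLT_X₃_iff n hP).1 h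
    have hinj : ∀ K, Function.Injective (ev (kernel.ι π) K) := by
      intro K
      have h2 := (NatTrans.mono_iff_mono_app (kernel.ι π)).1 inferInstance (Opposite.op ⟨K⟩)
      exact (ModuleCat.mono_iff_injective _).1 h2
    have hex : ∀ K (x : ob P K), ev π K x = 0 → ∃ k, ev (kernel.ι π) K k = x := by
      intro K x hx
      have h2 := hS.exact.map ((evaluation (LO O)ᵒᵖ (ModuleCat.{0} ℚ)).obj (Opposite.op ⟨K⟩))
      rw [ShortComplex.moduleCat_exact_iff] at h2
      exact h2 x hx
    have hcond : ∀ K (x : ob (kernel π) K), ev π K (ev (kernel.ι π) K x) = 0 := by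
      intro K x
      have h2 := congrArg (fun f => NatTrans.app f (Opposite.op (⟨K⟩ : LO O))) (kernel.condition π)
      exact congrArg (fun f => ModuleCat.Hom.hom f x) h2
    refine ⟨Psi (kernel π), Psi P, Psim (kernel.ι π), MHom.comp' ((eta M).inv (eta_bij M)) (Psim π),
      ?_, ?_, ?_, ?_, ?_⟩
    · exact isProj_of (Psi P) (Projective.of_iso (asIso (eps P)).symm hP)
    · intro X f g hfg
      have hfg' : PVm (kernel.ι π) X f = PVm (kernel.ι π) X g := hfg
      apply Subtype.ext
      funext K a
      apply hinj K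
      exact congrArg (fun z : PV P X => z.1 K a) hfg'
    · intro X m
      obtain ⟨f, hf⟩ := PVm_surj π X ((eta M).app X m)
      refine ⟨f, ?_⟩
      show ((eta M).inv (eta_bij M)).app X (PVm π X f) = m
      rw [hf]
      exact MHom.inv_app _ _ _ _
    · intro X m
      have h3 : (MHom.comp' ((eta M).inv (eta_bij M)) (Psim π)).app X m = 0 ↔ PVm π X m = 0 := by
        constructor
        · intro h4
          have h5 : (eta M).app X (((eta M).inv (eta_bij M)).app X ((Psim π).app X m)) = (eta M).app X 0 :=
            congrArg _ h4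
          rw [MHom.app_inv, map_zero] at h5
          exact h5
        · intro h4
          show ((eta M).inv (eta_bij M)).app X (PVm π X m) = 0
          rw [h4]
          exact map_zero _
      rw [h3]
      constructor
      · intro h4
        have h5 : ∀ K (a : Ad O K X), ∃ k, ev (kernel.ι π) K k = (m : PV P X).1 K a := by
          intro K a
          apply hex
          exact congrArg (fun z : PV (Phi M) X => z.1 K a) h4
        choose k hk using h5
        refine ⟨⟨k, ?_⟩, ?_⟩
        · intro J K b hb a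
          apply hinj J
          rw [ev_mp, hk, hk]
          exact (m : PV P X).2 J K b hb a
        · apply Subtype.ext
          funext K a
          exact hk K a
      · rintro ⟨k, rfl⟩
        apply Subtype.ext
        funext K a
        exact hcond K _
    · apply ih
      exact hasProjectiveDimensionLT_of_iso (asIso (eps (kernel π))).symm (n + 1)

theorem all_iff (n : ℕ) : (∀ M : OMack O, pdLE n M) ↔ ∀ F : FO O, HasProjectiveDimensionLT F (n + 1) := by
  constructor
  · intro h F
    haveI := pd_to n (Psi F) (h _)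
    exact hasProjectiveDimensionLT_of_iso (asIso (eps F)) (n + 1)
  · intro h M
    exact pd_from n M (h _)

theorem pdLE_mono {M : OMack O} {m n : ℕ} (h : m ≤ n) (hm : pdLE m M) : pdLE n M := by
  apply pd_from
  haveI := pd_to m M hm
  exact hasProjectiveDimensionLT_of_ge (Phi M) (m + 1) (n + 1) (by omega)

theorem gldim_le_iff (n : ℕ) : gldim O ≤ n ↔ ∀ F : FO O, HasProjectiveDimensionLT F (n + 1) := by
  rw [← all_iff, gldim, iSup_le_iff]
  apply forall_congr'
  intro M
  constructor
  · intro h
    by_contra hc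
    have h1 : ((n + 1 : ℕ) : ℕ∞) ≤ pd M := by
      apply le_sInf
      rintro _ ⟨k, rfl, hk⟩
      have : ¬ k ≤ n := fun hkn => hc (pdLE_mono hkn hk)
      exact_mod_cast (by omega : n + 1 ≤ k)
    have h2 := h1.trans h
    have h3 : n + 1 ≤ n := by exact_mod_cast h2
    omega
  · intro h
    exact sInf_le ⟨n, rfl, h⟩

end Pool.Agent.X317.MK
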