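import Mathlib
import Pool.Agent.X317.MK.Pe

/-!
# Comparison of functor categories for two transfer systems
-/

set_option autoImplicit false
set_option linter.all false

namespace Pool.Agent.X317.MK

open MulAction CategoryTheory CategoryTheory.Limits
open Classical

variable {G : Type} [Group G] [Finite G]

section sub
variable {O : TS G} (F : FO O) (U : ∀ K : (LO O)ᵒᵖ, Submodule ℚ (F.obj K))
  (hU : ∀ {K L : (LO O)ᵒᵖ} (f : K ⟶ L), U K ≤ (U L).comap (F.map f).hom)

/-- subfunctor -/
noncomputable def subF : FO O where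
  obj K := ModuleCat.of ℚ (U K)
  map f := ModuleCat.ofHom ((F.map f).hom.restrict (fun x hx => hU f hx))
  map_id K := by
    apply ModuleCat.hom_ext
    apply LinearMap.ext
    intro x
    apply Subtype.ext
    exact congrArg (fun g => ModuleCat.Hom.hom g x.1) (F.map_id K)
  map_comp f g := by
    apply ModuleCat.hom_ext
    apply LinearMap.ext
    intro x
    apply Subtype.ext
    exact congrArg (fun g => ModuleCat.Hom.hom g x.1) (F.map_comp f g)

/-- quotient functor -/
noncomputable def quoF : FO O where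
  obj K := ModuleCat.of ℚ (F.obj K ⧸ U K)
  map f := ModuleCat.ofHom (Submodule.mapQ _ _ (F.map f).hom (hU f))
  map_id K := by
    apply ModuleCat.hom_ext
    apply LinearMap.ext
    intro x
    obtain ⟨m, rfl⟩ := Submodule.mkQ_surjective _ x
    exact congrArg (fun g => Submodule.mkQ (U K) (ModuleCat.Hom.hom g m)) (F.map_id K)
  map_comp {K L N} f g := by
    apply ModuleCat.hom_ext
    apply LinearMap.ext
    intro x
    obtain ⟨m, rfl⟩ := Submodule.mkQ_surjective _ x
    exact congrArg (fun g => Submodule.mkQ (U N) (ModuleCat.Hom.hom g m)) (F.map_comp f g)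

noncomputable def subι : subF F U hU ⟶ F where
  app K := ModuleCat.ofHom (U K).subtype
  naturality := by
    intro K L f
    rfl

noncomputable def quoπ : F ⟶ quoF F U hU where
  app K := ModuleCat.ofHom (U K).mkQ
  naturality := by
    intro K L f
    rfl

theorem quoπ_epi : Epi (quoπ F U hU) := by
  rw [NatTrans.epi_iff_epi_app]
  intro K
  apply (ModuleCat.epi_iff_surjective _).2
  exact Submodule.mkQ_surjective _

theorem sub_se : ∃ w, (ShortComplex.mk (subι F U hU) (quoπ F U hU) w).ShortExact := by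
  have w : subι F U hU ≫ quoπ F U hU = 0 := by
    apply NatTrans.ext
    funext K
    apply ModuleCat.hom_ext
    apply LinearMap.ext
    intro x
    exact (Submodule.Quotient.mk_eq_zero _).2 x.2
  refine ⟨w, { exact := ?_, mono_f := ?_, epi_g := quoπ_epi F U hU }⟩
  · apply GD.exact_of_ev
    intro K
    rw [ShortComplex.moduleCat_exact_iff]
    intro x hx
    have h1 : Submodule.mkQ (U K) x = 0 := hx
    have h2 : x ∈ U K := (Submodule.Quotient.mk_eq_zero _).1 h1
    exact ⟨⟨x, h2⟩, rfl⟩
  · rw [NatTrans.mono_iff_mono_app]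
    intro K
    apply (ModuleCat.mono_iff_injective _).2
    exact Subtype.val_injective

end sub

theorem card_le_map {J H : Subgroup G} (f : (orb J).X →[G] (orb H).X) : Nat.card J ≤ Nat.card H := by
  rw [← card_stab_orb (o1 J), ← card_stab_orb (f (o1 J))]
  exact Nat.card_le_card_of_injective _ (Subgroup.inclusion_injective (stab_le f (o1 J)))

theorem bij_of_card {J H : Subgroup G} (f : (orb J).X →[G] (orb H).X) (h : Nat.card H ≤ Nat.card J) :
    Function.Bijective f := by
  rcases Str_or_bij f with hs | hb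
  · have h1 := stab_lt hs (o1 J)
    rw [card_stab_orb, card_stab_orb] at h1
    omega
  · exact hb

/-- level truncation -/
noncomputable def lvl {O : TS G} (F : FO O) (m : ℕ) (K : (LO O)ᵒᵖ) : Submodule ℚ (F.obj K) :=
  if Nat.card K.unop.K < m then ⊤ else ⊥

theorem lvl_stable {O : TS G} (F : FO O) (m : ℕ) {K L : (LO O)ᵒᵖ} (f : K ⟶ L) :
    lvl F m K ≤ (lvl F m L).comap (F.map f).hom := by
  intro x hx
  show (F.map f).hom x ∈ lvl F m L
  by_cases h : Nat.card K.unop.K < m
  · have h1 := card_le_map f.unop.1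
    have h2 : Nat.card L.unop.K < m := by omega
    rw [lvl, if_pos h2]
    trivial
  · rw [lvl, if_neg h] at hx
    have h0 : x = 0 := hx
    rw [h0, map_zero]
    exact Submodule.zero_mem _

theorem mem_lvl {O : TS G} (F : FO O) {m : ℕ} {K : Subgroup G} (h : Nat.card K < m) (x : ob F K) :
    x ∈ lvl F m (Opposite.op ⟨K⟩) := by
  have h' : Nat.card (Opposite.unop (Opposite.op (⟨K⟩ : LO O))).K < m := h
  rw [lvl, if_pos h']
  trivial

theorem lvl_zero {O : TS G} (F : FO O) {m : ℕ} {K : Subgroup G} (h : ¬ Nat.card K < m) (x : ob F K)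
    (hx : x ∈ lvl F m (Opposite.op ⟨K⟩)) : x = 0 := by
  have h' : ¬ Nat.card (Opposite.unop (Opposite.op (⟨K⟩ : LO O))).K < m := h
  rw [lvl, if_neg h'] at hx
  exact hx

section comp
variable {O O' : TS G} (hO : ∀ K H, O.rel K H → O'.rel K H)

include hO in
theorem Lc_of {J H : Subgroup G} (h : Lc O' J H) : Lc O J H := ⟨h.1, fun K hK hJ => h.2 K (hO _ _ hK) hJ⟩

include hO in
theorem LM_of {X Y : FS G} {f : X.X →[G] Y.X} (h : LM O' f) : LM O f := fun x => Lc_of hO (h x)

/-- the inclusion -/
def jj : LO O' ⥤ LO O where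
  obj K := ⟨K.K⟩
  map f := ⟨f.1, LM_of hO f.2⟩

/-- restriction -/
abbrev js (F : FO O) : FO O' := (GD.rst (jj hO).op).obj F

theorem mp_js (F : FO O) {J H : Subgroup G} (f : (orb J).X →[G] (orb H).X) (hf : LM O' f)
    (x : ob F H) : mp (js hO F) f hf x = mp F f (LM_of hO hf) x := rfl

/-- families vanishing on the left maps -/
def ZZ (O : TS G) {O' : TS G} (F : FO O') (H : Subgroup G) : Submodule ℚ (PV F (orb H)) where
  carrier := {f | ∀ (K : Subgroup G) (a : Ad O' K (orb H)), LM O a.1 → f.1 K a = 0}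
  zero_mem' := fun K a _ => rfl
  add_mem' := by
    intro f g hf hg K a h
    show f.1 K a + g.1 K a = 0
    rw [hf K a h, hg K a h, add_zero]
  smul_mem' := by
    intro c f hf K a h
    show c • f.1 K a = 0
    rw [hf K a h, smul_zero]

theorem ZZ_res (F : FO O') {J H : Subgroup G} (l : (orb J).X →[G] (orb H).X) (hl : LM O l) :
    ZZ O F H ≤ (ZZ O F J).comap (rP F l) := by
  intro f hf K a ha
  obtain ⟨A, l', hl', a', h⟩ := exists_fac' O' (X := orb H) (l.comp a.1)
  rw [rP_eq l f a l' hl' a' h]
  have h1 : LM O (a'.1.comp l') := by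
    rw [h]
    exact LM_comp O ha hl
  rw [hf A a' (LM_cancel O h1), map_zero]

/-- the right construction -/
noncomputable def RR (O : TS G) {O' : TS G} (F : FO O') : FO O where
  obj K := ModuleCat.of ℚ (PV F (orb K.unop.K) ⧸ ZZ O F K.unop.K)
  map f := ModuleCat.ofHom (Submodule.mapQ _ _ (rP F f.unop.1) (ZZ_res F f.unop.1 f.unop.2))
  map_id K := by
    apply ModuleCat.hom_ext
    apply LinearMap.ext
    intro x
    obtain ⟨m, rfl⟩ := Submodule.mkQ_surjective _ x
    exact congrArg (Submodule.mkQ (ZZ O F K.unop.K)) (rP_id F m)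
  map_comp {K L N} f g := by
    apply ModuleCat.hom_ext
    apply LinearMap.ext
    intro x
    obtain ⟨m, rfl⟩ := Submodule.mkQ_surjective _ x
    exact congrArg (Submodule.mkQ (ZZ O F N.unop.K)) (rP_comp F g.unop.1 f.unop.1 m)

/-- class in `RR` -/
noncomputable def clr (O : TS G) {O' : TS G} (F : FO O') (K : Subgroup G) : PV F (orb K) →ₗ[ℚ] ob (RR O F) K :=
  Submodule.mkQ _

theorem clr_surj (F : FO O') (K : Subgroup G) : Function.Surjective (clr O F K) := Submodule.mkQ_surjective _

theorem clr_zero {F : FO O'} {K : Subgroup G} {f : PV F (orb K)} : clr O F K f = 0 ↔ f ∈ ZZ O F K :=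
  Submodule.Quotient.mk_eq_zero _

/-- evaluation at the identity -/
noncomputable def evr (F : FO O') : js hO (RR O F) ⟶ F where
  app K := ModuleCat.ofHom ((ZZ O F K.unop.K).liftQ
    ({ toFun := fun f => f.1 K.unop.K (idA O' K.unop.K), map_add' := fun f g => rfl, map_smul' := fun c f => rfl } :
      PV F (orb K.unop.K) →ₗ[ℚ] ob F K.unop.K) (fun f hf => hf _ _ (LM_id O _)))
  naturality := by
    intro H J f
    apply ModuleCat.hom_ext
    apply LinearMap.ext
    intro x
    obtain ⟨m, rfl⟩ := Submodule.mkQ_surjective _ x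
    exact rP_eq f.unop.1 m (idA O' J.unop.K) f.unop.1 f.unop.2 (idA O' H.unop.K) rfl

theorem evr_clr (F : FO O') (K : Subgroup G) (f : PV F (orb K)) :
    ev (evr hO F) K (clr O F K f) = f.1 K (idA O' K) := rfl

/-- the map `RR` -/
noncomputable def RRm {F F' : FO O'} (η : F ⟶ F') : RR O F ⟶ RR O F' where
  app K := ModuleCat.ofHom (Submodule.mapQ _ _ (PVm η (orb K.unop.K)) (by
    intro f hf L a ha
    show ev η L (f.1 L a) = 0
    rw [hf L a ha, map_zero]))
  naturality := by
    intro H J f
    apply ModuleCat.hom_ext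
    apply LinearMap.ext
    intro x
    obtain ⟨m, rfl⟩ := Submodule.mkQ_surjective _ x
    exact congrArg (Submodule.mkQ (ZZ O F' J.unop.K)) (PVm_res η f.unop.1 m)

theorem RRm_epi {F F' : FO O'} (η : F ⟶ F') [Epi η] : Epi (RRm (O := O) η) := by
  rw [NatTrans.epi_iff_epi_app]
  intro K
  apply (ModuleCat.epi_iff_surjective _).2
  intro x
  obtain ⟨n, rfl⟩ := Submodule.mkQ_surjective _ x
  obtain ⟨m, rfl⟩ := PVm_surj η _ n
  exact ⟨Submodule.mkQ _ m, rfl⟩

/-- the family of a morphism -/
noncomputable def fam {P : FO O} {F : FO O'} (h : js hO P ⟶ F) (H : Subgroup G) : ob P H →ₗ[ℚ] PV F (orb H) where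
  toFun p := ⟨fun K a => if ha : LM O a.1 then ev h K (mp P a.1 ha p) else 0, by
    intro J K b hb a
    show (if ha : LM O (a.1.comp b) then ev h J (mp P (a.1.comp b) ha p) else 0) =
      mp F b _ (if ha : LM O a.1 then ev h K (mp P a.1 ha p) else 0)
    by_cases ha : LM O a.1
    · have hab : LM O (a.1.comp b) := LM_comp O (LM_inj O hb.1) ha
      rw [dif_pos ha, dif_pos hab, mp_comp P b (LM_inj O hb.1) a.1 ha hab]
      exact ev_mp h b (LM_inj O' hb.1) (mp P a.1 ha p)
    · have hab : ¬ LM O (a.1.comp b) := fun h => ha (LM_cancel O h)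
      rw [dif_neg ha, dif_neg hab, map_zero]⟩
  map_add' p q := by
    apply Subtype.ext
    funext K a
    show (if ha : LM O a.1 then ev h K (mp P a.1 ha (p + q)) else 0) =
      (if ha : LM O a.1 then ev h K (mp P a.1 ha p) else 0) + (if ha : LM O a.1 then ev h K (mp P a.1 ha q) else 0)
    by_cases ha : LM O a.1
    · rw [dif_pos ha, dif_pos ha, dif_pos ha]
      exact (congrArg (ev h K) (map_add (mp P a.1 ha) p q)).trans (map_add (ev h K) _ _)
    · rw [dif_neg ha, dif_neg ha, dif_neg ha, add_zero]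
  map_smul' c p := by
    apply Subtype.ext
    funext K a
    show (if ha : LM O a.1 then ev h K (mp P a.1 ha (c • p)) else 0) =
      c • (if ha : LM O a.1 then ev h K (mp P a.1 ha p) else 0)
    by_cases ha : LM O a.1
    · rw [dif_pos ha, dif_pos ha]
      exact (congrArg (ev h K) (map_smul (mp P a.1 ha) c p)).trans (map_smul (ev h K) _ _)
    · rw [dif_neg ha, dif_neg ha, smul_zero]

theorem fam_pos {P : FO O} {F : FO O'} (h : js hO P ⟶ F) {H : Subgroup G} (p : ob P H) {K : Subgroup G}
    (a : Ad O' K (orb H)) (ha : LM O a.1) : (fam hO h H p).1 K a = ev h K (mp P a.1 ha p) := dif_pos ha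

/-- sharp -/
noncomputable def sharp {P : FO O} {F : FO O'} (h : js hO P ⟶ F) : P ⟶ RR O F where
  app H := ModuleCat.ofHom ((clr O F H.unop.K).comp (fam hO h H.unop.K))
  naturality := by
    intro H J f
    apply ModuleCat.hom_ext
    apply LinearMap.ext
    intro p
    show clr O F J.unop.K (fam hO h J.unop.K (mp P f.unop.1 f.unop.2 p)) =
      clr O F J.unop.K (rP F f.unop.1 (fam hO h H.unop.K p))
    rw [← sub_eq_zero, ← map_sub]
    apply clr_zero.2
    intro K a ha
    show (fam hO h J.unop.K (mp P f.unop.1 f.unop.2 p)).1 K a -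
      (rP F f.unop.1 (fam hO h H.unop.K p)).1 K a = 0
    rw [sub_eq_zero]
    obtain ⟨A, l', hl', a', hfac⟩ := exists_fac' O' (X := orb H.unop.K) (f.unop.1.comp a.1)
    have h1 : LM O (a'.1.comp l') := by
      rw [hfac]
      exact LM_comp O ha f.unop.2
    have h2 := LM_cancel O h1
    rw [rP_eq f.unop.1 _ a l' hl' a' hfac, fam_pos hO h _ a ha, fam_pos hO h _ a' h2]
    have e1 : ev h K (mp P l' (LM_of hO hl') (mp P a'.1 h2 p)) = mp F l' hl' (ev h A (mp P a'.1 h2 p)) :=
      ev_mp h l' hl' (mp P a'.1 h2 p)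
    rw [← e1, ← mp_comp P l' (LM_of hO hl') a'.1 h2 h1, ← mp_comp P a.1 ha f.unop.1 f.unop.2 (LM_comp O ha f.unop.2)]
    rw [mp_congr P _ _ hfac]

theorem js_proj (P : FO O) (hP : Projective P) : Projective (js hO P) := by
  constructor
  intro F F'' h q hq
  haveI := RRm_epi (O := O) q
  let t : P ⟶ RR O F := Projective.factorThru (sharp hO h) (RRm (O := O) q)
  have ht : t ≫ RRm (O := O) q = sharp hO h := Projective.factorThru_comp _ _
  refine ⟨(GD.rst (jj hO).op).map t ≫ evr hO F, ?_⟩
  apply NatTrans.ext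
  funext K
  apply ModuleCat.hom_ext
  apply LinearMap.ext
  intro p
  obtain ⟨f, hf⟩ := clr_surj (O := O) F K.unop.K (ev t K.unop.K p)
  have h1 : ev q K.unop.K (f.1 K.unop.K (idA O' K.unop.K)) = ev h K.unop.K p := by
    have h2 : ev (RRm (O := O) q) K.unop.K (ev t K.unop.K p) = ev (sharp hO h) K.unop.K p :=
      congrArg (fun g : P ⟶ RR O F'' => ev g K.unop.K p) ht
    rw [← hf] at h2
    have h3 : clr O F'' K.unop.K (PVm q (orb K.unop.K) f) = clr O F'' K.unop.K (fam hO h K.unop.K p) := h2
    rw [← sub_eq_zero, ← map_sub] at h3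
    have h4 := clr_zero.1 h3 K.unop.K (idA O' K.unop.K) (LM_id O _)
    have h5 : ev q K.unop.K (f.1 K.unop.K (idA O' K.unop.K)) -
      (fam hO h K.unop.K p).1 K.unop.K (idA O' K.unop.K) = 0 := h4
    rw [sub_eq_zero, fam_pos hO h p (idA O' K.unop.K) (LM_id O _)] at h5
    exact h5.trans (congrArg (ev h K.unop.K) (mp_id P _ _ rfl p))
  have h6 : ev (evr hO F) K.unop.K (ev t K.unop.K p) = f.1 K.unop.K (idA O' K.unop.K) := by
    rw [← hf]
    rfl
  show ev q K.unop.K (ev (evr hO F) K.unop.K (ev t K.unop.K p)) = ev h K.unop.K p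
  rw [h6, h1]

/-- the section of a concentrated functor -/
noncomputable def hhl {F : FO O'} (J : Subgroup G) : ob F J →ₗ[ℚ] PV F (orb J) where
  toFun v := hh J v
  map_add' v w := by
    apply Subtype.ext
    funext L b
    show (if h : Function.Bijective b.1 then mp F b.1 (LM_inj O' h.1) (v + w) else 0) =
      (if h : Function.Bijective b.1 then mp F b.1 (LM_inj O' h.1) v else 0) +
      (if h : Function.Bijective b.1 then mp F b.1 (LM_inj O' h.1) w else 0)
    by_cases h : Function.Bijective b.1
    · rw [dif_pos h, dif_pos h, dif_pos h, map_add]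
    · rw [dif_neg h, dif_neg h, dif_neg h, add_zero]
  map_smul' c v := by
    apply Subtype.ext
    funext L b
    show (if h : Function.Bijective b.1 then mp F b.1 (LM_inj O' h.1) (c • v) else 0) =
      c • (if h : Function.Bijective b.1 then mp F b.1 (LM_inj O' h.1) v else 0)
    by_cases h : Function.Bijective b.1
    · rw [dif_pos h, dif_pos h, map_smul]
    · rw [dif_neg h, dif_neg h, smul_zero]

theorem hh_bij {F : FO O'} {J : Subgroup G} (v : ob F J) {L : Subgroup G} (b : Ad O' L (orb J))
    (h : Function.Bijective b.1) : (hh J v : PV F (orb J)).1 L b = mp F b.1 (LM_inj O' h.1) v := dif_pos h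

noncomputable def secS (F : FO O') (n : ℕ) (hn : ∀ K : Subgroup G, Nat.card K ≠ n → ∀ x : ob F K, x = 0) :
    F ⟶ js hO (RR O F) where
  app K := ModuleCat.ofHom ((clr O F K.unop.K).comp (hhl K.unop.K))
  naturality := by
    intro H J f
    apply ModuleCat.hom_ext
    apply LinearMap.ext
    intro v
    show clr O F J.unop.K (hh J.unop.K (mp F f.unop.1 f.unop.2 v)) =
      clr O F J.unop.K (rP F f.unop.1 (hh H.unop.K v))
    apply congrArg (clr O F J.unop.K)
    apply Subtype.ext
    funext K a
    by_cases hK : Nat.card K = n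
    · by_cases hH : Nat.card H.unop.K = n
      · have c1 := card_le_map a.1
        have c2 := card_le_map f.unop.1
        have hab := bij_of_card a.1 (by omega)
        have hfb := bij_of_card f.unop.1 (by omega)
        have hL : LM O' f.unop.1 := f.unop.2
        have hfa : Function.Bijective (f.unop.1.comp a.1) := hfb.comp hab
        have e1 := hh_bij (mp F f.unop.1 f.unop.2 v) a hab
        have e2 := rP_adm f.unop.1 (hh H.unop.K v : PV F (orb H.unop.K)) a
          ⟨f.unop.1.comp a.1, Adm_inj O' hfa.1⟩ rfl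
        have e3 := hh_bij v (⟨f.unop.1.comp a.1, Adm_inj O' hfa.1⟩ : Ad O' K (orb H.unop.K)) hfa
        exact e1.trans (((mp_comp F a.1 (LM_inj O' hab.1) f.unop.1 f.unop.2
          (LM_inj O' hfa.1) v).symm).trans (e3.symm.trans e2.symm))
      · rw [hn _ hH v, map_zero]
        have h0 : (hh H.unop.K (0 : ob F H.unop.K) : PV F (orb H.unop.K)) = 0 :=
          (hhl (F := F) H.unop.K).map_zero
        have h0' : (hh J.unop.K (0 : ob F J.unop.K) : PV F (orb J.unop.K)) = 0 :=
          (hhl (F := F) J.unop.K).map_zero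
        rw [h0, h0', map_zero]
    · rw [hn K hK ((hh J.unop.K (mp F f.unop.1 f.unop.2 v) : PV F (orb J.unop.K)).1 K a),
        hn K hK ((rP F f.unop.1 (hh H.unop.K v)).1 K a)]

include hO in
theorem lvl_pd (n d : ℕ) (hall : ∀ F : FO O, HasProjectiveDimensionLT F d) (F : FO O')
    (hn : ∀ K : Subgroup G, Nat.card K ≠ n → ∀ x : ob F K, x = 0) : HasProjectiveDimensionLT F d := by
  have h1 := GD.pd_rst (jj hO).op (js_proj hO) d (RR O F) (hall _)
  have hr : secS hO F n hn ≫ evr hO F = 𝟙 F := by
    apply NatTrans.ext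
    funext K
    apply ModuleCat.hom_ext
    apply LinearMap.ext
    intro v
    exact hh_id K.unop.K v
  exact (Retract.mk (secS hO F n hn) (evr hO F) hr).hasProjectiveDimensionLT d

include hO in
theorem FO_mono (d : ℕ) (hall : ∀ F : FO O, HasProjectiveDimensionLT F d) :
    ∀ F : FO O', HasProjectiveDimensionLT F d := by
  have key : ∀ (c n : ℕ), Nat.card G + 1 ≤ n + c → ∀ F : FO O', (∀ K : Subgroup G, Nat.card K < n → ∀ x : ob F K, x = 0) →
      HasProjectiveDimensionLT F d := by
    intro c
    induction c with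
    | zero =>
      intro n hn F hF
      apply lvl_pd hO 0 d hall F
      intro K _ x
      have := Subgroup.card_le_card_group K
      exact hF K (by omega) x
    | succ c ih =>
      intro n hn F hF
      obtain ⟨w, hS⟩ := sub_se F (lvl F (n + 1)) (lvl_stable F (n + 1))
      apply hS.hasProjectiveDimensionLT_X₂ d
      · apply lvl_pd hO n d hall
        intro K hK x
        by_cases h : Nat.card K < n
        · apply Subtype.ext
          exact hF K h x.1
        · apply Subtype.ext
          have h' : ¬ Nat.card K < n + 1 := by omega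
          exact lvl_zero F h' x.1 x.2
      · apply ih (n + 1) (by omega)
        intro K hK x
        obtain ⟨m, rfl⟩ := Submodule.mkQ_surjective _ x
        apply (Submodule.Quotient.mk_eq_zero _).2
        exact mem_lvl F hK m
  intro F
  exact key (Nat.card G + 1) 0 (by omega) F (fun K hK => absurd hK (Nat.not_lt_zero _))

end comp

theorem gldim_mono {O O' : TS G} (hO : ∀ K H, O.rel K H → O'.rel K H) : gldim O' ≤ gldim O := by
  rcases eq_or_ne (gldim O) ⊤ with h | h
  · rw [h]
    exact le_top
  · obtain ⟨n, hn⟩ := ENat.ne_top_iff_exists.1 h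
    rw [← hn, gldim_le_iff]
    apply FO_mono hO
    rw [← gldim_le_iff, ← hn]

end Pool.Agent.X317.MK
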