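import Mathlib
import Pool.Agent.X317.MK.Fo

/-!
# Vanishing of the global dimension
-/

set_option autoImplicit false
set_option linter.all false

namespace Pool.Agent.X317.MK

open MulAction CategoryTheory CategoryTheory.Limits
open Classical

variable {G : Type} [Group G] [Finite G] {O : TS G}

theorem LM_bij (hc : ∀ K H : Subgroup G, K ≤ H → O.rel K H) {J H : Subgroup G}
    {f : (orb J).X →[G] (orb H).X} (hf : LM O f) : Function.Bijective f := by
  rcases Str_or_bij f with hs | hb
  · exact absurd (Lc_adm O (hf (o1 J)) (hc _ _ (stab_le f _))) (hs _)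
  · exact hb

/-- bijections -/
abbrev BB (K H : Subgroup G) : Type := {b : (orb K).X →[G] (orb H).X // Function.Bijective b}

noncomputable def iv {K H : Subgroup G} (b : BB K H) : BB H K :=
  ⟨(exists_inv (X := orb K) (Y := orb H) b.1 b.2).choose, (exists_inv (X := orb K) (Y := orb H) b.1 b.2).choose_spec.1⟩

theorem iv_left {K H : Subgroup G} (b : BB K H) : (iv b).1.comp b.1 = MulActionHom.id G :=
  (exists_inv (X := orb K) (Y := orb H) b.1 b.2).choose_spec.2.1

theorem iv_right {K H : Subgroup G} (b : BB K H) : b.1.comp (iv b).1 = MulActionHom.id G :=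
  (exists_inv (X := orb K) (Y := orb H) b.1 b.2).choose_spec.2.2

def BB.comp {J K H : Subgroup G} (b : BB K H) (c : BB J K) : BB J H := ⟨b.1.comp c.1, b.2.comp c.2⟩

theorem iv_comp {J K H : Subgroup G} (b : BB K H) (c : BB J K) : c.1.comp (iv (b.comp c)).1 = (iv b).1 := by
  have h1 : b.1.comp (c.1.comp (iv (b.comp c)).1) = b.1.comp (iv b).1 := by
    rw [iv_right b]
    exact iv_right (b.comp c)
  apply DFunLike.ext
  intro x
  apply b.2.1
  exact DFunLike.congr_fun h1 x

instance (K : Subgroup G) : Finite (Σ H : Subgroup G, BB K H) := inferInstance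

noncomputable instance (K : Subgroup G) : Fintype (Σ H : Subgroup G, BB K H) := Fintype.ofFinite _

/-- the bijection of index sets -/
noncomputable def shf {J K : Subgroup G} (c : BB J K) : (Σ H : Subgroup G, BB K H) → (Σ H : Subgroup G, BB J H) :=
  fun z => ⟨z.1, z.2.comp c⟩

theorem shf_bij {J K : Subgroup G} (c : BB J K) : Function.Bijective (shf c) := by
  constructor
  · rintro ⟨H, b⟩ ⟨H', b'⟩ h
    have e1 : H = H' := congrArg Sigma.fst h
    subst e1
    have e2 : b.comp c = b'.comp c := eq_of_heq (Sigma.mk.inj h).2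
    have e3 : b = b' := by
      apply Subtype.ext
      apply DFunLike.ext
      intro x
      obtain ⟨y, rfl⟩ := c.2.2 x
      exact congrArg (fun z : BB J H => z.1 y) e2
    rw [e3]
  · rintro ⟨H, b⟩
    refine ⟨⟨H, b.comp (iv c)⟩, ?_⟩
    have e : (b.comp (iv c)).comp c = b := by
      apply Subtype.ext
      show b.1.comp ((iv c).1.comp c.1) = b.1
      rw [iv_left]
      rfl
    show (⟨H, (b.comp (iv c)).comp c⟩ : Σ H : Subgroup G, BB J H) = ⟨H, b⟩
    rw [e]

section avg
variable {F F' F'' : FO O} (h : F ⟶ F'') (q : F' ⟶ F'') (s : ∀ H : Subgroup G, ob F'' H →ₗ[ℚ] ob F' H)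

/-- one term -/
noncomputable def trm (K : Subgroup G) (z : Σ H : Subgroup G, BB K H) : ob F K →ₗ[ℚ] ob F' K :=
  (mp F' z.2.1 (LM_inj O z.2.2.1)).comp ((s z.1).comp ((ev h z.1).comp (mp F (iv z.2).1 (LM_inj O (iv z.2).2.1))))

/-- the average -/
noncomputable def avg (K : Subgroup G) : ob F K →ₗ[ℚ] ob F' K :=
  (Fintype.card (Σ H : Subgroup G, BB K H) : ℚ)⁻¹ • ∑ z : (Σ H : Subgroup G, BB K H), trm h s K z

theorem trm_nat {J K : Subgroup G} (c : BB J K) (z : Σ H : Subgroup G, BB K H) (x : ob F K) :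
    trm h s J (shf c z) (mp F c.1 (LM_inj O c.2.1) x) = mp F' c.1 (LM_inj O c.2.1) (trm h s K z x) := by
  have hL : LM O (z.2.1.comp c.1) := LM_comp O (LM_inj O c.2.1) (LM_inj O z.2.2.1)
  have e1 : mp F (iv (z.2.comp c)).1 (LM_inj O (iv (z.2.comp c)).2.1) (mp F c.1 (LM_inj O c.2.1) x) =
      mp F (iv z.2).1 (LM_inj O (iv z.2).2.1) x := by
    rw [← mp_comp F (iv (z.2.comp c)).1 (LM_inj O (iv (z.2.comp c)).2.1) c.1 (LM_inj O c.2.1)
      (LM_comp O (LM_inj O (iv (z.2.comp c)).2.1) (LM_inj O c.2.1))]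
    exact mp_congr F _ _ (iv_comp z.2 c) x
  have e2 := mp_comp F' c.1 (LM_inj O c.2.1) z.2.1 (LM_inj O z.2.2.1) hL
    (s z.1 (ev h z.1 (mp F (iv z.2).1 (LM_inj O (iv z.2).2.1) x)))
  refine Eq.trans ?_ e2
  exact congrArg (fun y => mp F' (z.2.1.comp c.1) hL (s z.1 (ev h z.1 y))) e1

theorem avg_nat {J K : Subgroup G} (c : BB J K) (x : ob F K) :
    avg h s J (mp F c.1 (LM_inj O c.2.1) x) = mp F' c.1 (LM_inj O c.2.1) (avg h s K x) := by
  have h1 : Fintype.card (Σ H : Subgroup G, BB K H) = Fintype.card (Σ H : Subgroup G, BB J H) :=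
    Fintype.card_congr (Equiv.ofBijective (shf c) (shf_bij c))
  rw [avg, avg, LinearMap.smul_apply, LinearMap.smul_apply, map_smul, LinearMap.sum_apply,
    LinearMap.sum_apply, map_sum, h1]
  congr 1
  symm
  exact Fintype.sum_bijective (shf c) (shf_bij c) _ _ (fun z => (trm_nat h s c z x).symm)

theorem avg_q (hs : ∀ H x, ev q H (s H x) = x) (K : Subgroup G) (x : ob F K) :
    ev q K (avg h s K x) = ev h K x := by
  have h1 : ∀ z : (Σ H : Subgroup G, BB K H), ev q K (trm h s K z x) = ev h K x := by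
    intro z
    show ev q K (mp F' z.2.1 _ (s z.1 (ev h z.1 (mp F (iv z.2).1 _ x)))) = ev h K x
    rw [ev_mp, hs, ← ev_mp, ← mp_comp F z.2.1 (LM_inj O z.2.2.1) (iv z.2).1 (LM_inj O (iv z.2).2.1)
      (LM_comp O (LM_inj O z.2.2.1) (LM_inj O (iv z.2).2.1)), mp_id F _ _ (iv_left z.2)]
  have hne : (Fintype.card (Σ H : Subgroup G, BB K H) : ℚ) ≠ 0 := by
    have : 0 < Fintype.card (Σ H : Subgroup G, BB K H) :=
      Fintype.card_pos_iff.2 ⟨⟨K, MulActionHom.id G, Function.bijective_id⟩⟩
    positivity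
  rw [avg, LinearMap.smul_apply, map_smul, LinearMap.sum_apply, map_sum,
    Finset.sum_congr rfl (fun z _ => h1 z), Finset.sum_const, Finset.card_univ, ← Nat.cast_smul_eq_nsmul ℚ,
    smul_smul, inv_mul_cancel₀ hne, one_smul]

end avg

theorem proj_of_complete (hc : ∀ K H : Subgroup G, K ≤ H → O.rel K H) (F : FO O) : Projective F := by
  constructor
  intro F' F'' h q hq
  choose s hs using fun H : Subgroup G =>
    LinearMap.exists_rightInverse_of_surjective (ev q H) (LinearMap.range_eq_top.2 (ev_surj q H))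
  have hs' : ∀ H x, ev q H (s H x) = x := fun H x => LinearMap.congr_fun (hs H) x
  refine ⟨{ app := fun K => ModuleCat.ofHom (avg h s K.unop.K), naturality := ?_ }, ?_⟩
  · intro K J f
    apply ModuleCat.hom_ext
    apply LinearMap.ext
    intro x
    exact avg_nat h s (⟨f.unop.1, LM_bij hc f.unop.2⟩ : BB J.unop.K K.unop.K) x
  · apply NatTrans.ext
    funext K
    apply ModuleCat.hom_ext
    apply LinearMap.ext
    intro x
    exact avg_q h q s hs' K.unop.K x

theorem complete_of_proj (hall : ∀ F : FO O, Projective F) (K H : Subgroup G) (hKH : K ≤ H) : O.rel K H := by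
  by_contra hn
  obtain ⟨A, hA, hL⟩ := exists_cl O hKH
  have hne : K ≠ A := by
    rintro rfl
    exact hn hA
  have hlt : Nat.card K < Nat.card A := by
    have h3 : K < A := lt_of_le_of_ne hL.1 hne
    have h4 : ((K : Set G)).ncard < ((A : Set G)).ncard := Set.ncard_lt_ncard h3 (Set.toFinite _)
    exact h4
  let Q : FO O := (Functor.const _).obj (ModuleCat.of ℚ ℚ)
  haveI := quoπ_epi Q (lvl Q (Nat.card A)) (lvl_stable Q (Nat.card A))
  haveI := hall (quoF Q (lvl Q (Nat.card A)) (lvl_stable Q (Nat.card A)))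
  let π := quoπ Q (lvl Q (Nat.card A)) (lvl_stable Q (Nat.card A))
  let s := Projective.factorThru (𝟙 (quoF Q (lvl Q (Nat.card A)) (lvl_stable Q (Nat.card A)))) π
  have hs : s ≫ π = 𝟙 _ := Projective.factorThru_comp _ _
  obtain ⟨l, hl⟩ := exists_map (K := K) (X := (orb A).X) (o1 K) (o1 A) (by
    rw [stab_o1, stab_o1]
    exact hL.1)
  have hLM : LM O l := LM_of_pt O (Y := orb A) (o1 K) (by
    rw [hl, stab_o1, stab_o1]
    exact hL)
  let one : ob Q A := (1 : ℚ)
  have h1 : ev π A (ev s A (ev π A one)) = ev π A one :=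
    congrArg (fun g : quoF Q (lvl Q (Nat.card A)) (lvl_stable Q (Nat.card A)) ⟶
      quoF Q (lvl Q (Nat.card A)) (lvl_stable Q (Nat.card A)) => ev g A (ev π A one)) hs
  have h2 : ev s A (ev π A one) = one := by
    rw [← sub_eq_zero]
    apply lvl_zero Q (m := Nat.card A) (K := A) (lt_irrefl _)
    apply (Submodule.Quotient.mk_eq_zero _).1
    have h3 : ev π A (ev s A (ev π A one) - one) = 0 := by rw [map_sub, h1, sub_self]
    exact h3
  have h3 := ev_mp s l hLM (ev π A one)
  have h4 : mp (quoF Q (lvl Q (Nat.card A)) (lvl_stable Q (Nat.card A))) l hLM (ev π A one) = 0 := by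
    rw [← ev_mp π l hLM one]
    exact (Submodule.Quotient.mk_eq_zero _).2 (mem_lvl Q hlt _)
  rw [h4, h2, map_zero] at h3
  have h5 : (0 : ℚ) = 1 := h3
  exact zero_ne_one h5

theorem gldim_zero_iff (O : TS G) : gldim O = 0 ↔ ∀ K H : Subgroup G, K ≤ H → O.rel K H := by
  have h0 : gldim O = 0 ↔ ∀ F : FO O, HasProjectiveDimensionLT F 1 := by
    rw [← nonpos_iff_eq_zero]
    exact gldim_le_iff (O := O) 0
  rw [h0]
  constructor
  · intro h
    apply complete_of_proj
    intro F
    exact projective_iff_hasProjectiveDimensionLT_one.2 (h F)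
  · intro h F
    exact projective_iff_hasProjectiveDimensionLT_one.1 (proj_of_complete h F)

end Pool.Agent.X317.MK
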